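import Mathlib

/-!
# MP_eca5e6_al, sparse rays: combinatorics of positive words in two letters

`false` is the frequent letter `a`, `true` the rare letter `b`.
-/

set_option autoImplicit false

namespace Pool.Agent.Lib.MP_eca5e6_al.Sp

open Finset

/-- number of letters a -/
def nx : List Bool → ℕ
  | [] => 0
  | true :: w => nx w
  | false :: w => nx w + 1

/-- number of letters b -/
def ny : List Bool → ℕ
  | [] => 0
  | true :: w => ny w + 1
  | false :: w => ny w

/-- sum of the positions -/
def sg : List Bool → ℕ
  | [] => 0
  | true :: w => sg w
  | false :: w => sg w + ny w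

/-- first exponent of weight three -/
def t1 : List Bool → ℕ
  | [] => 0
  | true :: w => t1 w
  | false :: w => t1 w + nx w * ny w

/-- second exponent of weight three -/
def t2 : List Bool → ℕ
  | [] => 0
  | true :: w => t2 w
  | false :: w => t2 w + (ny w).choose 2

/-- position of the i-th letter b: the number of letters a before it -/
def pf : List Bool → ℕ → ℕ
  | [], _ => 0
  | true :: _, 0 => 0
  | true :: w, i + 1 => pf w i
  | false :: w, i => pf w i + 1

theorem nx_append (u v : List Bool) : nx (u ++ v) = nx u + nx v := by
  induction u with
  | nil => simp [nx]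
  | cons t u ih => cases t <;> simp [nx, ih, Nat.add_right_comm]

theorem ny_append (u v : List Bool) : ny (u ++ v) = ny u + ny v := by
  induction u with
  | nil => simp [ny]
  | cons t u ih => cases t <;> simp [ny, ih, Nat.add_right_comm]

theorem nx_add_ny (u : List Bool) : nx u + ny u = u.length := by
  induction u with
  | nil => simp [nx, ny]
  | cons t u ih => cases t <;> simp [nx, ny] <;> omega

theorem nx_replicate (d : ℕ) : nx (List.replicate d false) = d := by
  induction d with
  | zero => simp [nx]
  | succ d ih => simp [List.replicate_succ, nx, ih]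

theorem ny_replicate (d : ℕ) : ny (List.replicate d false) = 0 := by
  induction d with
  | zero => simp [ny]
  | succ d ih => simp [List.replicate_succ, ny, ih]

theorem pf_mono (w : List Bool) : ∀ i, pf w i ≤ pf w (i + 1) := by
  induction w with
  | nil => intro i; simp [pf]
  | cons t w ih =>
    intro i
    cases t
    · simp only [pf]
      exact Nat.add_le_add_right (ih i) 1
    · cases i with
      | zero => simp [pf]
      | succ i =>
        simp only [pf]
        exact ih i

theorem pf_append_lt (u v : List Bool) : ∀ i, i < ny u → pf (u ++ v) i = pf u i := by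
  induction u with
  | nil => intro i hi; simp [ny] at hi
  | cons t u ih =>
    intro i hi
    cases t
    · simp only [ny] at hi
      simp only [List.cons_append, pf, ih i hi]
    · cases i with
      | zero => simp [pf]
      | succ i =>
        simp only [ny] at hi
        simp only [List.cons_append, pf]
        exact ih i (by omega)

theorem pf_append_ge (u v : List Bool) : ∀ i, pf (u ++ v) (ny u + i) = nx u + pf v i := by
  induction u with
  | nil => intro i; simp [ny, nx]
  | cons t u ih =>
    intro i
    cases t
    · simp only [ny, nx, List.cons_append, pf, ih i]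
      omega
    · have e : ny u + 1 + i = (ny u + i) + 1 := by omega
      simp only [ny, nx, List.cons_append, e, pf, ih i]

theorem pf_replicate (d : ℕ) (v : List Bool) (i : ℕ) :
    pf (List.replicate d false ++ v) i = d + pf v i := by
  have := pf_append_ge (List.replicate d false) v i
  rwa [ny_replicate, nx_replicate, Nat.zero_add] at this

/-- the sum of the positions -/
theorem sg_eq (w : List Bool) : (sg w : ℤ) = ∑ i ∈ range (ny w), (pf w i : ℤ) := by
  induction w with
  | nil => simp [sg, ny]
  | cons t w ih =>
    cases t
    · simp only [sg, ny, pf]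
      push_cast
      rw [sum_add_distrib, ← ih]
      simp
    · simp only [sg, ny]
      rw [sum_range_succ']
      simp [pf, ih]

/-- the first exponent of weight three -/
theorem t1_eq (w : List Bool) : 2 * (t1 w : ℤ) =
    (2 * nx w - 1) * sg w - ∑ i ∈ range (ny w), (pf w i : ℤ) ^ 2 := by
  induction w with
  | nil => simp [t1, sg, ny]
  | cons t w ih =>
    have h2 := sg_eq w
    cases t
    · simp only [t1, sg, ny, nx, pf]
      push_cast
      have e : ∑ i ∈ range (ny w), ((pf w i : ℤ) + 1) ^ 2 =
          ∑ i ∈ range (ny w), (pf w i : ℤ) ^ 2 + 2 * ∑ i ∈ range (ny w), (pf w i : ℤ) + ny w := by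
        rw [mul_sum, ← sum_add_distrib]
        have e2 : (ny w : ℤ) = ∑ i ∈ range (ny w), (1 : ℤ) := by simp
        conv_rhs => rw [e2]
        simp only [sum_const, card_range]
        rw [show (ny w • (1 : ℤ)) = ∑ i ∈ range (ny w), (1 : ℤ) by simp, ← sum_add_distrib]
        exact sum_congr rfl fun i _ => by ring
      rw [e, ← h2]
      linear_combination ih
    · simp only [t1, sg, ny, nx]
      rw [sum_range_succ']
      simp only [pf]
      push_cast
      linear_combination ih

theorem ch2 (n : ℕ) : ((n.choose 2 : ℕ) : ℤ) = ∑ i ∈ range n, (i : ℤ) := by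
  induction n with
  | zero => simp
  | succ n ih =>
    rw [sum_range_succ, ← ih, Nat.choose_succ_succ' n 1, Nat.choose_one_right]
    push_cast
    ring

theorem ch2' (n : ℕ) : (n : ℤ) * (n - 1) = 2 * ((n.choose 2 : ℕ) : ℤ) := by
  induction n with
  | zero => simp
  | succ n ih =>
    rw [Nat.choose_succ_succ' n 1, Nat.choose_one_right]
    push_cast
    linear_combination ih

/-- the second exponent of weight three -/
theorem t2_eq (w : List Bool) : (t2 w : ℤ) =
    ((ny w : ℤ) - 1) * sg w - ∑ i ∈ range (ny w), (i : ℤ) * pf w i := by
  induction w with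
  | nil => simp [t2, sg, ny]
  | cons t w ih =>
    have h2 := sg_eq w
    cases t
    · simp only [t2, sg, ny, pf]
      push_cast
      have e : ∑ i ∈ range (ny w), (i : ℤ) * ((pf w i : ℤ) + 1) =
          ∑ i ∈ range (ny w), (i : ℤ) * pf w i + ((ny w).choose 2 : ℤ) := by
        rw [ch2, ← sum_add_distrib]
        exact sum_congr rfl fun i _ => by ring
      have e4 := ch2' (ny w)
      rw [e]
      linear_combination ih - e4
    · simp only [t2, sg, ny]
      rw [sum_range_succ']
      simp only [pf]
      push_cast
      have e : ∑ i ∈ range (ny w), ((i : ℤ) + 1) * (pf w i : ℤ) =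
          ∑ i ∈ range (ny w), (i : ℤ) * (pf w i : ℤ) + ∑ i ∈ range (ny w), (pf w i : ℤ) := by
        rw [← sum_add_distrib]
        exact sum_congr rfl fun i _ => by ring
      rw [e, ← h2]
      linear_combination ih

end Pool.Agent.Lib.MP_eca5e6_al.Sp
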