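import Pool.Agent.Lib.MP_eca5e6_al.Sp.Comb
import Pool.Agent.Lib.MP_eca5e6_al.C2.MainFin

section

/-!
# MP_eca5e6_al, sparse rays: sparse positions are determined by two power sums
-/

set_option autoImplicit false

namespace Pool.Agent.Lib.MP_eca5e6_al.Sp

open Finset

theorem core_step (α β k p q D E Ep Iq Ip : ℤ) (hα : α ≠ 0) (hk : 0 ≤ k) (hD : 0 ≤ D)
    (hD1 : 0 ≤ D + (p - q)) (hE1 : E ≤ q * (D + (p - q)))
    (hE2 : E ≤ (D + (p - q)) ^ 2) (hE0 : 0 ≤ E) (hEp0 : 0 ≤ Ep) (hEp : Ep ≤ D ^ 2)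
    (hIq0 : 0 ≤ Iq) (hIq : Iq ≤ k * (D + (p - q))) (hIp0 : 0 ≤ Ip) (hIp : Ip ≤ k * D)
    (hbig : 16 * (|β| + 1) * (k + 1) * (D + 1) ^ 2 < p)
    (heq : α * (E - Ep + q ^ 2 - p ^ 2) + 2 * β * (Iq - Ip + k * (q - p)) = 0) : q = p := by
  obtain ⟨δ, hδ⟩ : ∃ δ, δ = p - q := ⟨_, rfl⟩
  have hq : q = p - δ := by omega
  subst hq
  have e0 : p - (p - δ) = δ := by ring
  have hD1' : 0 ≤ D + δ := by rwa [e0] at hD1
  have hIq' : Iq ≤ k * (D + δ) := by rwa [e0] at hIq
  have hE1' : E ≤ (p - δ) * (D + δ) := by rwa [e0] at hE1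
  have hE2' : E ≤ (D + δ) ^ 2 := by rwa [e0] at hE2
  clear hδ hD1 hIq hE1 hE2 e0
  obtain ⟨b, hb⟩ : ∃ b, b = |β| := ⟨_, rfl⟩
  have hb0 : 0 ≤ b := by rw [hb]; exact abs_nonneg β
  rw [← hb] at hbig
  set W : ℤ := 2 * p * δ - δ ^ 2 - E + Ep with hW
  set J : ℤ := Iq - Ip - k * δ with hJ
  have h1 : α * W = 2 * (β * J) := by
    rw [hW, hJ]
    linear_combination -heq
  have h2 : |W| ≤ 2 * (b * |J|) := by
    have h3 : |α| * |W| = 2 * (b * |J|) := by
      rw [hb, ← abs_mul, h1, abs_mul, abs_mul, abs_two]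
    rw [← h3]
    exact le_mul_of_one_le_left (abs_nonneg W) (Int.one_le_abs hα)
  have hkD : 0 ≤ k * D := mul_nonneg hk hD
  have hbk : 0 ≤ b * k := mul_nonneg hb0 hk
  have hbkD : 0 ≤ b * k * D := mul_nonneg hbk hD
  have hD2 : 0 ≤ D ^ 2 := sq_nonneg D
  -- lower bound of the big number by simple monomials
  have hbig2 : 16 * (D ^ 2 + b * k * D + b * k + 1) < p := by
    refine lt_of_le_of_lt ?_ hbig
    have e1 : 16 * (b + 1) * (k + 1) * (D + 1) ^ 2 =
        16 * (D ^ 2 + b * k * D + b * k + 1) +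
        16 * ((b + k + b * k) * D ^ 2 + (2 * b + 2 * k + b * k + 2) * D + (b + k)) := by ring
    rw [e1]
    have e2 : 0 ≤ (b + k + b * k) * D ^ 2 := mul_nonneg (by linarith) hD2
    have e3 : 0 ≤ (2 * b + 2 * k + b * k + 2) * D := mul_nonneg (by linarith) hD
    linarith
  rcases lt_trichotomy δ 0 with hneg | hzero | hpos
  · exfalso
    obtain ⟨ε, hε⟩ : ∃ ε, ε = -δ := ⟨_, rfl⟩
    have hδε : δ = -ε := by omega
    have hε1 : 1 ≤ ε := by omega
    have hεD : ε ≤ D := by omega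
    have hkε : k * ε ≤ k * D := mul_le_mul_of_nonneg_left hεD hk
    have hkε0 : 0 ≤ k * ε := mul_nonneg hk (by omega)
    have hJ1 : |J| ≤ 2 * (k * D) := by
      rw [abs_le]
      have e1 : J = Iq - Ip + k * ε := by rw [hJ, hδε]; ring
      have e2 : Iq ≤ k * D := by
        refine hIq'.trans (mul_le_mul_of_nonneg_left ?_ hk)
        omega
      constructor <;> linarith
    have hW1 : 2 * p - D ^ 2 ≤ |W| := by
      refine le_trans ?_ (neg_le_abs W)
      have e1 : -W = 2 * (p * ε) + ε ^ 2 + E - Ep := by rw [hW, hδε]; ring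
      have e2 : p ≤ p * ε := by
        have : 0 ≤ p * (ε - 1) := mul_nonneg (by linarith) (by omega)
        linarith
      have e3 : 0 ≤ ε ^ 2 := sq_nonneg ε
      linarith
    have h3 : b * |J| ≤ 2 * (b * k * D) := by
      have := mul_le_mul_of_nonneg_left hJ1 hb0
      linarith
    linarith
  · rw [hzero]
    ring
  · exfalso
    have hδ1 : 1 ≤ δ := hpos
    have hkδ0 : 0 ≤ k * δ := mul_nonneg hk (by omega)
    have hJ1 : |J| ≤ k * (D + δ) := by
      rw [abs_le]
      constructor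
      · rw [hJ]
        linarith
      · rw [hJ]
        linarith
    have h3 : b * |J| ≤ b * (k * (D + δ)) := mul_le_mul_of_nonneg_left hJ1 hb0
    rcases le_or_gt δ D with hle | hgt
    · have e1 : (D + δ) ^ 2 ≤ 4 * D ^ 2 := by
        have e2 : (D + δ) ^ 2 ≤ (2 * D) ^ 2 := pow_le_pow_left₀ (by linarith) (by linarith) 2
        linarith
      have e3 : δ ^ 2 ≤ D ^ 2 := pow_le_pow_left₀ (by linarith) hle 2
      have e4 : p ≤ p * δ := by
        have : 0 ≤ p * (δ - 1) := mul_nonneg (by linarith) (by omega)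
        linarith
      have e5 : 2 * p - 5 * D ^ 2 ≤ W := by
        rw [hW]
        linarith
      have e6 : b * (k * (D + δ)) ≤ 2 * (b * k * D) := by
        have : b * k * (D + δ) ≤ b * k * (2 * D) := mul_le_mul_of_nonneg_left (by linarith) hbk
        linarith
      have e7 := le_abs_self W
      linarith
    · obtain ⟨η, hη⟩ : ∃ η, η = δ - D := ⟨_, rfl⟩
      have hη1 : 1 ≤ η := by omega
      have hδη : δ = D + η := by omega
      have e1 : p * η ≤ W := by
        have e2 : (p - δ) * (D + δ) = p * D + p * δ - δ * D - δ ^ 2 := by ring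
        have e3 : p * η = p * δ - p * D := by rw [hη]; ring
        have e4 : 0 ≤ δ * D := mul_nonneg (by omega) hD
        rw [hW]
        linarith
      have e5 : b * (k * (D + δ)) ≤ b * k * (2 * D + 1) * η := by
        have e6 : D + δ ≤ (2 * D + 1) * η := by
          have e7 : 0 ≤ 2 * D * (η - 1) := mul_nonneg (by linarith) (by omega)
          rw [hδη]
          linarith
        have := mul_le_mul_of_nonneg_left e6 hbk
        linarith
      have e8 := le_abs_self W
      have e9 : p * η ≤ 2 * (b * k * (2 * D + 1)) * η := by linarith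
      have e10 := le_of_mul_le_mul_right e9 (by omega : 0 < η)
      linarith

/-- the bound which makes positions sparse -/
def bd (b k D : ℕ) : ℕ := 16 * (b + 1) * (k + 1) * (D + 1) ^ 2

theorem sum_sq_le (k : ℕ) (q : ℕ → ℤ) (hq : ∀ i, i < k → 0 ≤ q i) :
    ∑ i ∈ range k, q i ^ 2 ≤ (∑ i ∈ range k, q i) ^ 2 := by
  induction k with
  | zero => simp
  | succ k ih =>
    rw [sum_range_succ, sum_range_succ]
    have h1 := ih fun i hi => hq i (by omega)
    have h2 : 0 ≤ ∑ i ∈ range k, q i :=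
      sum_nonneg fun i hi => hq i (by have := mem_range.1 hi; omega)
    have h3 := hq k (by omega)
    have h4 : 0 ≤ (∑ i ∈ range k, q i) * q k := mul_nonneg h2 h3
    linarith [h1, h4, show (∑ i ∈ range k, q i + q k) ^ 2 = (∑ i ∈ range k, q i) ^ 2 +
      2 * ((∑ i ∈ range k, q i) * q k) + q k ^ 2 by ring]

theorem uniq (α β : ℤ) (hα : α ≠ 0) (p q : ℕ → ℕ) (hqm : ∀ i, q i ≤ q (i + 1))
    (hp : ∀ k, bd β.natAbs k (∑ i ∈ range k, p i) < p k) : ∀ m : ℕ,
    ∑ i ∈ range m, (q i : ℤ) = ∑ i ∈ range m, (p i : ℤ) →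
    α * (∑ i ∈ range m, (q i : ℤ) ^ 2 - ∑ i ∈ range m, (p i : ℤ) ^ 2) +
      2 * β * (∑ i ∈ range m, (i : ℤ) * q i - ∑ i ∈ range m, (i : ℤ) * p i) = 0 →
    ∀ i, i < m → q i = p i := by
  intro m
  induction m with
  | zero => intro _ _ i hi; omega
  | succ k ih =>
    intro h1 h2
    have hmono : ∀ i, i ≤ k → q i ≤ q k := by
      intro i hi
      exact monotone_nat_of_le_succ hqm hi
    have hD : 0 ≤ ∑ i ∈ range k, (p i : ℤ) := sum_nonneg fun i _ => Int.natCast_nonneg _
    have hk : q k = p k := by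
      have hD1 : (∑ i ∈ range k, (p i : ℤ)) + ((p k : ℤ) - q k) = ∑ i ∈ range k, (q i : ℤ) := by
        rw [sum_range_succ, sum_range_succ] at h1
        linarith
      have := core_step α β k (p k) (q k) (∑ i ∈ range k, (p i : ℤ))
        (∑ i ∈ range k, (q i : ℤ) ^ 2) (∑ i ∈ range k, (p i : ℤ) ^ 2)
        (∑ i ∈ range k, (i : ℤ) * q i) (∑ i ∈ range k, (i : ℤ) * p i) hα
        (Int.natCast_nonneg _) hD (by rw [hD1]; exact sum_nonneg fun i _ => Int.natCast_nonneg _)
        ?_ ?_ (sum_nonneg fun i _ => sq_nonneg _) (sum_nonneg fun i _ => sq_nonneg _)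
        (sum_sq_le k _ fun i _ => Int.natCast_nonneg _)
        (sum_nonneg fun i _ => mul_nonneg (Int.natCast_nonneg _) (Int.natCast_nonneg _)) ?_
        (sum_nonneg fun i _ => mul_nonneg (Int.natCast_nonneg _) (Int.natCast_nonneg _)) ?_ ?_ ?_
      · exact_mod_cast this
      · rw [hD1, mul_sum]
        apply sum_le_sum
        intro i hi
        rw [sq]
        apply mul_le_mul_of_nonneg_right _ (Int.natCast_nonneg _)
        exact_mod_cast hmono i (mem_range.1 hi).le
      · rw [hD1]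
        exact sum_sq_le k _ fun i _ => Int.natCast_nonneg _
      · rw [hD1, mul_sum]
        apply sum_le_sum
        intro i hi
        apply mul_le_mul_of_nonneg_right _ (Int.natCast_nonneg _)
        exact_mod_cast (mem_range.1 hi).le
      · rw [mul_sum]
        apply sum_le_sum
        intro i hi
        apply mul_le_mul_of_nonneg_right _ (Int.natCast_nonneg _)
        exact_mod_cast (mem_range.1 hi).le
      · have e := hp k
        unfold bd at e
        have e2 : (((16 * (β.natAbs + 1) * (k + 1) * (∑ i ∈ range k, p i + 1) ^ 2 : ℕ) : ℤ)) <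
            ((p k : ℕ) : ℤ) := by exact_mod_cast e
        push_cast at e2
        exact e2
      · rw [sum_range_succ, sum_range_succ, sum_range_succ, sum_range_succ] at h2
        linear_combination h2
    intro i hi
    rcases Nat.lt_succ_iff_lt_or_eq.1 hi with hi' | hi'
    · apply ih _ _ i hi'
      · rw [sum_range_succ, sum_range_succ, hk] at h1
        linarith
      · rw [sum_range_succ, sum_range_succ, sum_range_succ, sum_range_succ, hk] at h2
        linear_combination h2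
    · rw [hi']
      exact hk

end Pool.Agent.Lib.MP_eca5e6_al.Sp
end

section

/-!
# MP_eca5e6_al, sparse rays: normal form of positive words in a group of class three
-/

set_option autoImplicit false

namespace Pool.Agent.Lib.MP_eca5e6_al.Sp

open Finset

/-- value of a positive word -/
def evl {P : Type} [Group P] (a b : P) : List Bool → P
  | [] => 1
  | true :: w => b * evl a b w
  | false :: w => a * evl a b w

theorem evl_append {P : Type} [Group P] (a b : P) (u v : List Bool) :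
    evl a b (u ++ v) = evl a b u * evl a b v := by
  induction u with
  | nil => simp [evl]
  | cons t u ih => cases t <;> simp [evl, ih, mul_assoc]

theorem map_evl {P R : Type} [Group P] [Group R] (f : P →* R) (a b : P) (u : List Bool) :
    f (evl a b u) = evl (f a) (f b) u := by
  induction u with
  | nil => simp [evl]
  | cons t u ih => cases t <;> simp [evl, ih]

section cls

variable {P : Type} [Group P] {a b c c1 c2 : P}

/-- relations in a group of class three -/
structure Rel3 (a b c c1 c2 : P) : Prop where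
  hab : a * b = b * a * c
  hca : c * a = a * c * c1
  hcb : c * b = b * c * c2
  z1 : c1 ∈ Subgroup.center P
  z2 : c2 ∈ Subgroup.center P

theorem Rel3.comm1 (h : Rel3 a b c c1 c2) (g : P) : g * c1 = c1 * g :=
  Subgroup.mem_center_iff.1 h.z1 g

theorem Rel3.comm2 (h : Rel3 a b c c1 c2) (g : P) : g * c2 = c2 * g :=
  Subgroup.mem_center_iff.1 h.z2 g

theorem Rel3.cp1 (h : Rel3 a b c c1 c2) (n : ℕ) (g : P) : g * c1 ^ n = c1 ^ n * g :=
  Subgroup.mem_center_iff.1 (pow_mem h.z1 n) g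

theorem Rel3.cp2 (h : Rel3 a b c c1 c2) (n : ℕ) (g : P) : g * c2 ^ n = c2 ^ n * g :=
  Subgroup.mem_center_iff.1 (pow_mem h.z2 n) g

/-- a group element times a power past an element with central commutator -/
theorem pass {x y z : P} (hxy : x * y = y * x * z) (hz : z ∈ Subgroup.center P) (m n : ℕ) :
    x ^ m * y ^ n = y ^ n * x ^ m * z ^ (m * n) := by
  have hc : ∀ g k, g * z ^ k = z ^ k * g := fun g k => Subgroup.mem_center_iff.1 (pow_mem hz k) g
  have h1 : ∀ n : ℕ, x * y ^ n = y ^ n * x * z ^ n := by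
    intro n
    induction n with
    | zero => simp
    | succ n ih =>
      calc x * y ^ (n + 1) = (x * y ^ n) * y := by rw [pow_succ, mul_assoc]
        _ = y ^ n * x * (z ^ n * y) := by rw [ih, mul_assoc]
        _ = y ^ n * (x * y) * z ^ n := by rw [← hc y n]; simp only [mul_assoc]
        _ = y ^ n * (y * x * z) * z ^ n := by rw [hxy]
        _ = y ^ (n + 1) * x * z ^ (n + 1) := by
          rw [pow_succ y, pow_succ' z]
          simp only [mul_assoc]
  induction m with
  | zero => simp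
  | succ m ih =>
    calc x ^ (m + 1) * y ^ n = x * (x ^ m * y ^ n) := by rw [pow_succ', mul_assoc]
      _ = (x * y ^ n) * x ^ m * z ^ (m * n) := by rw [ih]; simp only [mul_assoc]
      _ = y ^ n * x * (z ^ n * x ^ m) * z ^ (m * n) := by rw [h1]; simp only [mul_assoc]
      _ = y ^ n * (x * x ^ m) * (z ^ n * z ^ (m * n)) := by
        rw [← hc (x ^ m) n]
        simp only [mul_assoc]
      _ = y ^ n * x ^ (m + 1) * z ^ ((m + 1) * n) := by
        rw [← pow_succ', ← pow_add]
        congr 2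
        ring

theorem Rel3.aby (h : Rel3 a b c c1 c2) (y : ℕ) :
    a * b ^ y = b ^ y * a * c ^ y * c2 ^ (y.choose 2) := by
  induction y with
  | zero => simp
  | succ y ih =>
    have e1 := pass h.hcb h.z2 y 1
    rw [pow_one, mul_one] at e1
    calc a * b ^ (y + 1) = (a * b ^ y) * b := by rw [pow_succ, mul_assoc]
      _ = b ^ y * a * c ^ y * (c2 ^ (y.choose 2) * b) := by rw [ih, mul_assoc]
      _ = b ^ y * a * (c ^ y * b) * c2 ^ (y.choose 2) := by
        rw [← h.cp2]
        simp only [mul_assoc]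
      _ = b ^ y * (a * b) * c ^ y * (c2 ^ y * c2 ^ (y.choose 2)) := by
        rw [e1]
        simp only [mul_assoc]
      _ = (b ^ y * b) * a * (c * c ^ y) * (c2 ^ y * c2 ^ (y.choose 2)) := by
        rw [h.hab]
        simp only [mul_assoc]
      _ = _ := by
        rw [← pow_succ, ← pow_succ', ← pow_add, Nat.choose_succ_succ' y 1, Nat.choose_one_right]

/-- normal form -/
theorem Rel3.nf (h : Rel3 a b c c1 c2) (w : List Bool) :
    evl a b w = b ^ ny w * a ^ nx w * c ^ sg w * c1 ^ t1 w * c2 ^ t2 w := by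
  induction w with
  | nil => simp [evl, ny, nx, sg, t1, t2]
  | cons t w ih =>
    cases t
    · simp only [evl, ny, nx, sg, t1, t2]
      rw [ih]
      have e1 := pass h.hca h.z1 (ny w) (nx w)
      calc a * (b ^ ny w * a ^ nx w * c ^ sg w * c1 ^ t1 w * c2 ^ t2 w)
          = (a * b ^ ny w) * a ^ nx w * c ^ sg w * c1 ^ t1 w * c2 ^ t2 w := by
            simp only [mul_assoc]
        _ = b ^ ny w * a * c ^ ny w * (c2 ^ ((ny w).choose 2) * (a ^ nx w * c ^ sg w * c1 ^ t1 w)) *
            c2 ^ t2 w := by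
            rw [h.aby]
            simp only [mul_assoc]
        _ = b ^ ny w * a * (c ^ ny w * a ^ nx w) * c ^ sg w * c1 ^ t1 w *
            (c2 ^ ((ny w).choose 2) * c2 ^ t2 w) := by
            rw [← h.cp2]
            simp only [mul_assoc]
        _ = b ^ ny w * (a * a ^ nx w) * c ^ ny w * (c1 ^ (ny w * nx w) * c ^ sg w) * c1 ^ t1 w *
            (c2 ^ ((ny w).choose 2) * c2 ^ t2 w) := by
            rw [e1]
            simp only [mul_assoc]
        _ = b ^ ny w * (a * a ^ nx w) * (c ^ ny w * c ^ sg w) * (c1 ^ (ny w * nx w) * c1 ^ t1 w) *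
            (c2 ^ ((ny w).choose 2) * c2 ^ t2 w) := by
            rw [← h.cp1]
            simp only [mul_assoc]
        _ = _ := by
            rw [← pow_succ', ← pow_add, ← pow_add, ← pow_add, Nat.add_comm (ny w) (sg w),
              Nat.add_comm ((ny w).choose 2), Nat.add_comm (ny w * nx w), Nat.mul_comm (ny w)]
    · simp only [evl, ny, nx, sg, t1, t2]
      rw [ih, pow_succ']
      simp only [mul_assoc]

/-- the invariants of a positive word in a group of class three -/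
theorem Rel3.inv (h : Rel3 a b c c1 c2) (hinf : ∀ n : ℤ, c1 ^ n = 1 → n = 0) {u v : List Bool}
    (huv : evl a b u = evl a b v) :
    nx u = nx v ∧ ny u = ny v ∧ sg u = sg v ∧ c1 ^ t1 u * c2 ^ t2 u = c1 ^ t1 v * c2 ^ t2 v := by
  have hinf' : ∀ m n : ℕ, c1 ^ m = c1 ^ n → m = n := by
    intro m n hmn
    have e1 : c1 ^ ((m : ℤ) - n) = 1 := by
      rw [zpow_sub, zpow_natCast, zpow_natCast, hmn, mul_inv_cancel]
    have := hinf _ e1
    omega
  -- commuting with c
  have hc : ∀ w : List Bool, c * evl a b w = evl a b w * (c * (c1 ^ nx w * c2 ^ ny w)) := by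
    intro w
    have e1 := pass h.hcb h.z2 1 (ny w)
    have e2 := pass h.hca h.z1 1 (nx w)
    rw [pow_one, one_mul] at e1 e2
    rw [h.nf]
    calc c * (b ^ ny w * a ^ nx w * c ^ sg w * c1 ^ t1 w * c2 ^ t2 w)
        = (c * b ^ ny w) * a ^ nx w * c ^ sg w * c1 ^ t1 w * c2 ^ t2 w := by
          simp only [mul_assoc]
      _ = b ^ ny w * c * (c2 ^ ny w * (a ^ nx w * c ^ sg w * c1 ^ t1 w * c2 ^ t2 w)) := by
          rw [e1]
          simp only [mul_assoc]
      _ = b ^ ny w * (c * a ^ nx w) * c ^ sg w * c1 ^ t1 w * c2 ^ t2 w * c2 ^ ny w := by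
          rw [← h.cp2]
          simp only [mul_assoc]
      _ = b ^ ny w * a ^ nx w * c * (c1 ^ nx w * (c ^ sg w * c1 ^ t1 w * c2 ^ t2 w * c2 ^ ny w)) := by
          rw [e2]
          simp only [mul_assoc]
      _ = b ^ ny w * a ^ nx w * (c * c ^ sg w) * c1 ^ t1 w * c2 ^ t2 w * c2 ^ ny w * c1 ^ nx w := by
          rw [← h.cp1]
          simp only [mul_assoc]
      _ = b ^ ny w * a ^ nx w * c ^ sg w * (c * (c1 ^ t1 w * (c2 ^ t2 w * (c2 ^ ny w * c1 ^ nx w)))) := by
          rw [← pow_succ', pow_succ]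
          simp only [mul_assoc]
      _ = b ^ ny w * a ^ nx w * c ^ sg w * (c1 ^ t1 w * (c * (c2 ^ t2 w * (c2 ^ ny w * c1 ^ nx w)))) := by
          rw [← mul_assoc c (c1 ^ t1 w), h.cp1 (t1 w) c, mul_assoc (c1 ^ t1 w) c]
      _ = b ^ ny w * a ^ nx w * c ^ sg w * (c1 ^ t1 w * (c2 ^ t2 w * (c * (c2 ^ ny w * c1 ^ nx w)))) := by
          rw [← mul_assoc c (c2 ^ t2 w), h.cp2 (t2 w) c, mul_assoc (c2 ^ t2 w) c]
      _ = _ := by
          rw [h.cp1 (nx w) (c2 ^ ny w)]
          simp only [mul_assoc]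
  have r1 : c1 ^ nx u * c2 ^ ny u = c1 ^ nx v * c2 ^ ny v := by
    have e1 := hc u
    have e2 := hc v
    rw [huv] at e1
    exact mul_left_cancel (mul_left_cancel (e1.symm.trans e2))
  -- commuting with a
  have ha : ∀ w : List Bool, a * evl a b w * c1 ^ sg w = evl a b w * a *
      (c ^ ny w * (c1 ^ (nx w * ny w) * c2 ^ ((ny w).choose 2))) := by
    intro w
    have e0 : a * evl a b w = evl a b (false :: w) := rfl
    have e1 := pass h.hca h.z1 (sg w) 1
    rw [pow_one, mul_one] at e1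
    rw [e0, h.nf, h.nf]
    simp only [ny, nx, sg, t1, t2]
    symm
    calc b ^ ny w * a ^ nx w * c ^ sg w * c1 ^ t1 w * c2 ^ t2 w * a *
          (c ^ ny w * (c1 ^ (nx w * ny w) * c2 ^ ((ny w).choose 2)))
        = b ^ ny w * a ^ nx w * c ^ sg w * (c1 ^ t1 w * c2 ^ t2 w * a) *
          (c ^ ny w * (c1 ^ (nx w * ny w) * c2 ^ ((ny w).choose 2))) := by
          simp only [mul_assoc]
      _ = b ^ ny w * a ^ nx w * (c ^ sg w * a) * (c1 ^ t1 w * c2 ^ t2 w *
          (c ^ ny w * (c1 ^ (nx w * ny w) * c2 ^ ((ny w).choose 2)))) := by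
          rw [mul_assoc (c1 ^ t1 w), ← h.cp2 (t2 w) a, ← mul_assoc (c1 ^ t1 w), ← h.cp1 (t1 w) a]
          simp only [mul_assoc]
      _ = b ^ ny w * (a ^ nx w * a) * c ^ sg w * (c1 ^ sg w * (c1 ^ t1 w * c2 ^ t2 w *
          (c ^ ny w * (c1 ^ (nx w * ny w) * c2 ^ ((ny w).choose 2))))) := by
          rw [e1]
          simp only [mul_assoc]
      _ = b ^ ny w * (a ^ nx w * a) * c ^ sg w * (c1 ^ t1 w * c2 ^ t2 w *
          (c ^ ny w * (c1 ^ (nx w * ny w) * c2 ^ ((ny w).choose 2)))) * c1 ^ sg w := by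
          rw [← h.cp1 (sg w)]
          simp only [mul_assoc]
      _ = b ^ ny w * (a ^ nx w * a) * c ^ sg w * (c1 ^ t1 w * (c2 ^ t2 w *
          c ^ ny w)) * (c1 ^ (nx w * ny w) * c2 ^ ((ny w).choose 2)) * c1 ^ sg w := by
          simp only [mul_assoc]
      _ = b ^ ny w * (a ^ nx w * a) * (c ^ sg w * c ^ ny w) * c1 ^ t1 w * (c2 ^ t2 w *
          c1 ^ (nx w * ny w)) * c2 ^ ((ny w).choose 2) * c1 ^ sg w := by
          rw [← h.cp2 (t2 w) (c ^ ny w), ← mul_assoc (c1 ^ t1 w), ← h.cp1 (t1 w) (c ^ ny w)]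
          simp only [mul_assoc]
      _ = b ^ ny w * (a ^ nx w * a) * (c ^ sg w * c ^ ny w) * (c1 ^ t1 w * c1 ^ (nx w * ny w)) *
          (c2 ^ t2 w * c2 ^ ((ny w).choose 2)) * c1 ^ sg w := by
          rw [← h.cp2 (t2 w) (c1 ^ (nx w * ny w))]
          simp only [mul_assoc]
      _ = _ := by
          rw [← pow_succ, ← pow_add, ← pow_add, ← pow_add]
  have r2 : c ^ ny u * (c1 ^ (nx u * ny u) * c2 ^ ((ny u).choose 2)) * c1 ^ sg v =
      c ^ ny v * (c1 ^ (nx v * ny v) * c2 ^ ((ny v).choose 2)) * c1 ^ sg u := by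
    have e1 := ha u
    have e2 := ha v
    rw [huv] at e1
    have e3 : evl a b v * a * ((c ^ ny u * (c1 ^ (nx u * ny u) * c2 ^ ((ny u).choose 2))) *
        c1 ^ sg v) = evl a b v * a *
        ((c ^ ny v * (c1 ^ (nx v * ny v) * c2 ^ ((ny v).choose 2))) * c1 ^ sg u) := by
      rw [← mul_assoc (evl a b v * a), ← e1, ← mul_assoc (evl a b v * a), ← e2]
      rw [mul_assoc (a * evl a b v), mul_assoc (a * evl a b v), ← pow_add, ← pow_add, Nat.add_comm]
    exact mul_left_cancel e3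
  -- equal numbers of letters b
  have hz : ∀ (m n k : ℕ), c1 ^ m * c2 ^ n * c1 ^ k ∈ Subgroup.center P := fun m n k =>
    mul_mem (mul_mem (pow_mem h.z1 m) (pow_mem h.z2 n)) (pow_mem h.z1 k)
  have hconj : ∀ (m : ℕ) (z : P), z ∈ Subgroup.center P →
      c ^ m * z * a = a * (c ^ m * z) * c1 ^ m := by
    intro m z hz
    have e1 := pass h.hca h.z1 m 1
    rw [pow_one, mul_one] at e1
    have e2 := Subgroup.mem_center_iff.1 hz a
    have e3 := Subgroup.mem_center_iff.1 hz (c1 ^ m)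
    calc c ^ m * z * a = (c ^ m * a) * z := by rw [mul_assoc, ← e2, mul_assoc]
      _ = a * c ^ m * (c1 ^ m * z) := by rw [e1]; simp only [mul_assoc]
      _ = _ := by rw [e3]; simp only [mul_assoc]
  have r3 : ny u = ny v := by
    apply hinf'
    have e1 := hconj (ny u) (c1 ^ (nx u * ny u) * c2 ^ ((ny u).choose 2) * c1 ^ sg v) (hz _ _ _)
    have e2 := hconj (ny v) (c1 ^ (nx v * ny v) * c2 ^ ((ny v).choose 2) * c1 ^ sg u) (hz _ _ _)
    rw [← mul_assoc (c ^ ny u)] at e1
    rw [← mul_assoc (c ^ ny v)] at e2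
    rw [r2] at e1
    exact mul_left_cancel (e1.symm.trans e2)
  have r4 : nx u = nx v := by
    apply hinf'
    rw [r3] at r1
    exact mul_right_cancel r1
  have r5 : sg u = sg v := by
    rw [r3, r4] at r2
    exact (hinf' _ _ (mul_left_cancel r2)).symm
  refine ⟨r4, r3, r5, ?_⟩
  rw [h.nf, h.nf, r3, r4, r5, mul_assoc, mul_assoc (b ^ ny v * a ^ nx v * c ^ sg v)] at huv
  exact mul_left_cancel huv

theorem exists_coeff (hinf : ∀ n : ℤ, c1 ^ n = 1 → n = 0) :
    ∃ α β : ℤ, α ≠ 0 ∧ ∀ m1 m2 : ℤ, c1 ^ m1 * c2 ^ m2 = 1 → α * m1 + β * m2 = 0 := by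
  by_cases hex : ∃ r s : ℤ, s ≠ 0 ∧ c1 ^ r * c2 ^ s = 1
  · obtain ⟨r, s, hs, hrs⟩ := hex
    refine ⟨s, -r, hs, fun m1 m2 hm => ?_⟩
    have e1 : c2 ^ s = c1 ^ (-r) := by
      rw [zpow_neg]
      exact eq_inv_of_mul_eq_one_right hrs
    have e2 : c2 ^ m2 = c1 ^ (-m1) := by
      rw [zpow_neg]
      exact eq_inv_of_mul_eq_one_right hm
    have e3 : c1 ^ (-r * m2) = c1 ^ (-m1 * s) := by
      rw [zpow_mul, ← e1, zpow_mul, ← e2, ← zpow_mul, ← zpow_mul, mul_comm s m2]
    have e4 : c1 ^ (-r * m2 - -m1 * s) = 1 := by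
      rw [zpow_sub, e3, mul_inv_cancel]
    have e5 := hinf _ e4
    linear_combination e5
  · push Not at hex
    refine ⟨1, 0, one_ne_zero, fun m1 m2 hm => ?_⟩
    have e1 : m2 = 0 := by
      by_contra hne
      exact hex m1 m2 hne hm
    rw [e1, zpow_zero, mul_one] at hm
    rw [hinf _ hm]
    ring

/-- the invariants of a positive word -/
def InvEq (α β : ℤ) (u v : List Bool) : Prop :=
  nx u = nx v ∧ ny u = ny v ∧ sg u = sg v ∧
    α * (∑ i ∈ range (ny u), (pf u i : ℤ) ^ 2 - ∑ i ∈ range (ny v), (pf v i : ℤ) ^ 2) +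
      2 * β * (∑ i ∈ range (ny u), (i : ℤ) * pf u i - ∑ i ∈ range (ny v), (i : ℤ) * pf v i) = 0

theorem Rel3.invEq (h : Rel3 a b c c1 c2) (hinf : ∀ n : ℤ, c1 ^ n = 1 → n = 0) :
    ∃ α β : ℤ, α ≠ 0 ∧ ∀ u v : List Bool, evl a b u = evl a b v → InvEq α β u v := by
  have hcomm : Commute c1 c2 := (h.comm2 c1)
  obtain ⟨α, β, hα, hαβ⟩ := exists_coeff (c2 := c2) hinf
  refine ⟨α, β, hα, fun u v huv => ?_⟩
  obtain ⟨h1, h2, h3, h4⟩ := h.inv hinf huv
  refine ⟨h1, h2, h3, ?_⟩
  have e1 : c1 ^ ((t1 u : ℤ) - t1 v) * c2 ^ ((t2 u : ℤ) - t2 v) = 1 := by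
    rw [zpow_sub, zpow_sub, zpow_natCast, zpow_natCast, zpow_natCast, zpow_natCast]
    have e2 : c1 ^ t1 u * (c1 ^ t1 v)⁻¹ * (c2 ^ t2 u * (c2 ^ t2 v)⁻¹) =
        c1 ^ t1 u * c2 ^ t2 u * (c1 ^ t1 v * c2 ^ t2 v)⁻¹ := by
      have e3 := ((hcomm.pow_pow (t1 v) (t2 u)).inv_left).eq
      have e4 := ((hcomm.pow_pow (t1 v) (t2 v))).eq
      rw [e4, mul_inv_rev, mul_assoc, ← mul_assoc ((c1 ^ t1 v)⁻¹), e3, mul_assoc, mul_assoc]
    rw [e2, h4, mul_inv_cancel]
  have e2 := hαβ _ _ e1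
  have u1 := t1_eq u
  have v1 := t1_eq v
  have u2 := t2_eq u
  have v2 := t2_eq v
  rw [h1, h3] at u1
  rw [h2, h3] at u2
  rw [h2] at u1 ⊢
  linear_combination (-2 : ℤ) * e2 + α * (u1 - v1) + 2 * β * (u2 - v2)

end cls

end Pool.Agent.Lib.MP_eca5e6_al.Sp
end

section

end

section

/-!
# MP_eca5e6_al, sparse rays: two elements of a torsion-free nilpotent group
-/

set_option autoImplicit false

namespace Pool.Agent.Lib.MP_eca5e6_al.Sp

open scoped commutatorElement

/-- central elements of finite order -/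
def zt (R : Type) [Group R] : Subgroup R where
  carrier := {z | z ∈ Subgroup.center R ∧ ∃ n : ℕ, 0 < n ∧ z ^ n = 1}
  one_mem' := ⟨one_mem _, 1, one_pos, by simp⟩
  mul_mem' := by
    rintro x y ⟨hx, m, hm, hxm⟩ ⟨hy, n, hn, hyn⟩
    refine ⟨mul_mem hx hy, m * n, Nat.mul_pos hm hn, ?_⟩
    have hc : Commute x y := (Subgroup.mem_center_iff.1 hy x)
    rw [hc.mul_pow, pow_mul, hxm, one_pow, one_mul, Nat.mul_comm, pow_mul, hyn, one_pow]
  inv_mem' := by
    rintro x ⟨hx, m, hm, hxm⟩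
    exact ⟨inv_mem hx, m, hm, by rw [inv_pow, hxm, inv_one]⟩

instance zt_normal (R : Type) [Group R] : (zt R).Normal where
  conj_mem := by
    rintro x ⟨hx, hx'⟩ g
    have e : g * x * g⁻¹ = x := by rw [Subgroup.mem_center_iff.1 hx g, mul_inv_cancel_right]
    rw [e]
    exact ⟨hx, hx'⟩

theorem mem_zt {R : Type} [Group R] (z : R) :
    z ∈ zt R ↔ z ∈ Subgroup.center R ∧ ∃ n : ℕ, 0 < n ∧ z ^ n = 1 := Iff.rfl

/-- two generators commuting with their commutator -/
theorem class_two_of_pair {R : Type} [Group R] {a b : R}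
    (hgen : Subgroup.closure ({a, b} : Set R) = ⊤) {c : R} (hc : a * b = b * a * c)
    (hca : c * a = a * c) (hcb : c * b = b * c) (x y z : R) : ⁅⁅x, y⁆, z⁆ = 1 := by
  have hcen : ∀ {R' : Type} [Group R'] {a' b' t : R'},
      Subgroup.closure ({a', b'} : Set R') = ⊤ → t * a' = a' * t → t * b' = b' * t →
      t ∈ Subgroup.center R' := by
    intro R' _ a' b' t hg h1 h2
    have h3 : (⊤ : Subgroup R') ≤ Subgroup.centralizer {t} := by
      rw [← hg, Subgroup.closure_le]
      rintro x (rfl | rfl)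
      · exact Subgroup.mem_centralizer_singleton_iff.2 h1.symm
      · exact Subgroup.mem_centralizer_singleton_iff.2 h2.symm
    rw [Subgroup.mem_center_iff]
    intro g
    exact Subgroup.mem_centralizer_singleton_iff.1 (h3 (Subgroup.mem_top g))
  have hcc := hcen hgen hca hcb
  let π : R →* R ⧸ Subgroup.center R := QuotientGroup.mk' _
  have hπ : Function.Surjective π := QuotientGroup.mk'_surjective _
  have hg2 : Subgroup.closure ({π a, π b} : Set (R ⧸ Subgroup.center R)) = ⊤ := by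
    have e1 : ({π a, π b} : Set (R ⧸ Subgroup.center R)) = π '' {a, b} := by
      rw [Set.image_pair]
    rw [e1, ← MonoidHom.map_closure, hgen]
    exact Subgroup.map_top_of_surjective π hπ
  have hab : π a * π b = π b * π a := by
    have e1 : π c = 1 := (QuotientGroup.eq_one_iff _).2 hcc
    rw [← map_mul, hc, map_mul, e1, mul_one, map_mul]
  have ha := hcen hg2 rfl hab
  have hb := hcen hg2 hab.symm rfl
  have hall : (⊤ : Subgroup (R ⧸ Subgroup.center R)) ≤ Subgroup.center _ := by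
    rw [← hg2, Subgroup.closure_le]
    rintro x (rfl | rfl)
    · exact ha
    · exact hb
  have hxy : ⁅x, y⁆ ∈ Subgroup.center R := by
    have e1 : π ⁅x, y⁆ = 1 := by
      rw [map_commutatorElement, commutatorElement_eq_one_iff_mul_comm]
      exact (Subgroup.mem_center_iff.1 (hall (Subgroup.mem_top (π y))) (π x))
    exact (QuotientGroup.eq_one_iff _).1 e1
  rw [commutatorElement_eq_one_iff_mul_comm]
  exact (Subgroup.mem_center_iff.1 hxy z).symm

theorem comm_pow_central {R : Type} [Group R] {x h : R} (hy : ⁅x, h⁆ ∈ Subgroup.center R)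
    (n : ℕ) : ⁅x ^ n, h⁆ = ⁅x, h⁆ ^ n := by
  induction n with
  | zero => simp
  | succ n ih =>
    have e1 : ⁅x ^ (n + 1), h⁆ = x ^ n * ⁅x, h⁆ * (x ^ n)⁻¹ * ⁅x ^ n, h⁆ := by
      rw [pow_succ]
      simp only [commutatorElement_def]
      group
    rw [e1, Subgroup.mem_center_iff.1 hy (x ^ n), mul_inv_cancel_right, ih, pow_succ']

section lcs

variable {H : Type} [Group H]

/-- terms of the lower central series -/
abbrev lcs (H : Type) [Group H] (n : ℕ) : Subgroup H := (⊤ : Subgroup H).lowerCentralSeries n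

instance lcs_normal (n : ℕ) : (lcs H n).Normal := inferInstance

theorem lcs_comm (n : ℕ) {x : H} (hx : x ∈ lcs H n) (h : H) : ⁅x, h⁆ ∈ lcs H (n + 1) :=
  Subgroup.commutator_mem_commutator hx (Subgroup.mem_top h)

theorem lcs_central (n : ℕ) {x : H} (hx : x ∈ lcs H n) :
    (QuotientGroup.mk' (lcs H (n + 1))) x ∈ Subgroup.center (H ⧸ lcs H (n + 1)) := by
  rw [Subgroup.mem_center_iff]
  intro g
  obtain ⟨g, rfl⟩ := QuotientGroup.mk'_surjective _ g
  have e1 : (QuotientGroup.mk' (lcs H (n + 1))) ⁅x, g⁆ = 1 :=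
    (QuotientGroup.eq_one_iff _).2 (lcs_comm n hx g)
  rw [map_commutatorElement, commutatorElement_eq_one_iff_mul_comm] at e1
  exact e1.symm

/-- a factor of the lower central series is torsion as soon as the generating commutators are -/
theorem lcs_torsion (k : ℕ) (h : ∀ x ∈ lcs H k, ∀ y : H, ∃ n : ℕ, 0 < n ∧
    ⁅x, y⁆ ^ n ∈ lcs H (k + 2)) : ∀ g ∈ lcs H (k + 1), ∃ n : ℕ, 0 < n ∧ g ^ n ∈ lcs H (k + 2) := by
  let π : H →* H ⧸ lcs H (k + 2) := QuotientGroup.mk' _
  have hle : lcs H (k + 1) ≤ (zt (H ⧸ lcs H (k + 2))).comap π := by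
    show ⁅lcs H k, (⊤ : Subgroup H)⁆ ≤ _
    rw [Subgroup.commutator_le]
    intro x hx y _
    rw [Subgroup.mem_comap, mem_zt]
    refine ⟨lcs_central (k + 1) (lcs_comm k hx y), ?_⟩
    obtain ⟨n, hn, hxy⟩ := h x hx y
    exact ⟨n, hn, by rw [← map_pow]; exact (QuotientGroup.eq_one_iff _).2 hxy⟩
  intro g hg
  obtain ⟨n, hn, hgn⟩ := (mem_zt _).1 (hle hg) |>.2
  refine ⟨n, hn, ?_⟩
  rw [← map_pow] at hgn
  exact (QuotientGroup.eq_one_iff _).1 hgn

theorem lcs_torsion_succ (k : ℕ) (h : ∀ x ∈ lcs H k, ∃ n : ℕ, 0 < n ∧ x ^ n ∈ lcs H (k + 1)) :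
    ∀ g ∈ lcs H (k + 1), ∃ n : ℕ, 0 < n ∧ g ^ n ∈ lcs H (k + 2) := by
  apply lcs_torsion k
  intro x hx y
  obtain ⟨n, hn, hxn⟩ := h x hx
  refine ⟨n, hn, ?_⟩
  let π : H →* H ⧸ lcs H (k + 2) := QuotientGroup.mk' _
  have e1 : ⁅π x, π y⁆ ∈ Subgroup.center (H ⧸ lcs H (k + 2)) := by
    rw [← map_commutatorElement]
    exact lcs_central (k + 1) (lcs_comm k hx y)
  have e2 := comm_pow_central e1 n
  have e3 : π (⁅x ^ n, y⁆) = 1 := (QuotientGroup.eq_one_iff _).2 (lcs_comm (k + 1) hxn y)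
  rw [map_commutatorElement, map_pow, e2, ← map_commutatorElement, ← map_pow] at e3
  exact (QuotientGroup.eq_one_iff _).1 e3

theorem lcs_trivial (htf : ∀ g : H, ∀ n : ℕ, 0 < n → g ^ n = 1 → g = 1) (N : ℕ)
    (hN : lcs H N = ⊥) (k : ℕ) (h : ∀ x ∈ lcs H k, ∃ n : ℕ, 0 < n ∧ x ^ n ∈ lcs H (k + 1)) :
    lcs H k = ⊥ := by
  have h1 : ∀ j : ℕ, ∀ x ∈ lcs H (k + j), ∃ n : ℕ, 0 < n ∧ x ^ n ∈ lcs H (k + j + 1) := by
    intro j
    induction j with
    | zero => exact h
    | succ j ih => exact lcs_torsion_succ (k + j) ih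
  have h2 : ∀ j : ℕ, ∀ x ∈ lcs H k, ∃ n : ℕ, 0 < n ∧ x ^ n ∈ lcs H (k + j) := by
    intro j
    induction j with
    | zero => exact fun x hx => ⟨1, one_pos, by simpa using hx⟩
    | succ j ih =>
      intro x hx
      obtain ⟨n, hn, hxn⟩ := ih x hx
      obtain ⟨m, hm, hxm⟩ := h1 j _ hxn
      exact ⟨n * m, Nat.mul_pos hn hm, by rw [pow_mul]; exact hxm⟩
  rw [eq_bot_iff]
  intro x hx
  obtain ⟨n, hn, hxn⟩ := h2 N x hx
  have h3 : lcs H (k + N) ≤ lcs H N := Subgroup.lowerCentralSeries_antitone _ (by omega)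
  have h4 := h3 hxn
  rw [hN, Subgroup.mem_bot] at h4
  exact (Subgroup.mem_bot).2 (htf x n hn h4)

/-- the relations of class three in the quotient by the fourth term -/
theorem rel3_quot (a b : H) : ∃ c1 c2 : H ⧸ lcs H 3,
    Rel3 (QuotientGroup.mk' (lcs H 3) a) (QuotientGroup.mk' (lcs H 3) b)
      (QuotientGroup.mk' (lcs H 3) ((b * a)⁻¹ * (a * b))) c1 c2 := by
  set c : H := (b * a)⁻¹ * (a * b) with hc
  have hc1 : c ∈ lcs H 1 := by
    have e : c = ⁅a⁻¹, b⁻¹⁆ := by
      rw [hc]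
      simp only [commutatorElement_def]
      group
    rw [e]
    exact lcs_comm 0 (Subgroup.mem_top _) _
  have hx : ∀ x : H, (x * c)⁻¹ * (c * x) ∈ lcs H 2 := by
    intro x
    have e : (x * c)⁻¹ * (c * x) = ⁅c⁻¹, x⁻¹⁆ := by
      simp only [commutatorElement_def]
      group
    rw [e]
    exact lcs_comm 1 (inv_mem hc1) _
  refine ⟨QuotientGroup.mk' (lcs H 3) ((a * c)⁻¹ * (c * a)),
    QuotientGroup.mk' (lcs H 3) ((b * c)⁻¹ * (c * b)), ?_, ?_, ?_, lcs_central 2 (hx a),
    lcs_central 2 (hx b)⟩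
  · rw [← map_mul, ← map_mul, ← map_mul, mul_inv_cancel_left]
  · rw [← map_mul, ← map_mul, ← map_mul, mul_inv_cancel_left]
  · rw [← map_mul, ← map_mul, ← map_mul, mul_inv_cancel_left]

/-- if both commutators of weight three have finite order modulo the fourth term then the group
has class two -/
theorem class_two_of_torsion (htf : ∀ g : H, ∀ n : ℕ, 0 < n → g ^ n = 1 → g = 1) (N : ℕ)
    (hN : lcs H N = ⊥) {a b : H} (hgen : Subgroup.closure ({a, b} : Set H) = ⊤)
    {c1 c2 : H ⧸ lcs H 3}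
    (hrel : Rel3 (QuotientGroup.mk' (lcs H 3) a) (QuotientGroup.mk' (lcs H 3) b)
      (QuotientGroup.mk' (lcs H 3) ((b * a)⁻¹ * (a * b))) c1 c2)
    (h1 : ∃ n : ℕ, 0 < n ∧ c1 ^ n = 1) (h2 : ∃ n : ℕ, 0 < n ∧ c2 ^ n = 1) :
    lcs H 2 = ⊥ := by
  apply lcs_trivial htf N hN 2
  apply lcs_torsion 1
  intro x hx y
  let π : H →* H ⧸ lcs H 3 := QuotientGroup.mk' _
  let ρ : (H ⧸ lcs H 3) →* (H ⧸ lcs H 3) ⧸ zt (H ⧸ lcs H 3) := QuotientGroup.mk' _
  have hρπ : Function.Surjective (ρ.comp π) :=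
    (QuotientGroup.mk'_surjective _).comp (QuotientGroup.mk'_surjective _)
  have hg2 : Subgroup.closure ({ρ (π a), ρ (π b)} : Set ((H ⧸ lcs H 3) ⧸ zt (H ⧸ lcs H 3))) = ⊤ := by
    have e1 : ({ρ (π a), ρ (π b)} : Set ((H ⧸ lcs H 3) ⧸ zt (H ⧸ lcs H 3))) =
        (ρ.comp π) '' {a, b} := by
      rw [Set.image_pair]
      rfl
    rw [e1, ← MonoidHom.map_closure, hgen]
    exact Subgroup.map_top_of_surjective _ hρπ
  have hc1 : ρ c1 = 1 := (QuotientGroup.eq_one_iff _).2 ⟨hrel.z1, h1⟩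
  have hc2 : ρ c2 = 1 := (QuotientGroup.eq_one_iff _).2 ⟨hrel.z2, h2⟩
  set c := π ((b * a)⁻¹ * (a * b)) with hc
  have key := class_two_of_pair hg2 (c := ρ c)
    (by rw [← map_mul, hrel.hab, map_mul, map_mul])
    (by rw [← map_mul, hrel.hca, map_mul, hc1, mul_one, map_mul])
    (by rw [← map_mul, hrel.hcb, map_mul, hc2, mul_one, map_mul])
  -- x is a product of commutators
  have hx1 : ∀ x ∈ lcs H 1, ρ (π ⁅x, y⁆) = 1 := by
    have hle : lcs H 1 ≤ (Subgroup.center ((H ⧸ lcs H 3) ⧸ zt (H ⧸ lcs H 3))).comap (ρ.comp π) := by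
      show ⁅lcs H 0, (⊤ : Subgroup H)⁆ ≤ _
      rw [Subgroup.commutator_le]
      intro u _ v _
      rw [Subgroup.mem_comap, Subgroup.mem_center_iff]
      intro w
      have e := key (ρ (π u)) (ρ (π v)) w
      rw [commutatorElement_eq_one_iff_mul_comm] at e
      rw [map_commutatorElement]
      exact e.symm
    intro x hx
    have e := hle hx
    rw [Subgroup.mem_comap, Subgroup.mem_center_iff] at e
    rw [map_commutatorElement, map_commutatorElement, commutatorElement_eq_one_iff_mul_comm]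
    exact (e _).symm
  have e1 := (QuotientGroup.eq_one_iff _).1 (hx1 x hx)
  obtain ⟨n, hn, e2⟩ := ((mem_zt _).1 e1).2
  refine ⟨n, hn, ?_⟩
  have e3 : π (⁅x, y⁆ ^ n) = 1 := by rw [map_pow]; exact e2
  exact (QuotientGroup.eq_one_iff _).1 e3

end lcs

/-- two elements of a torsion-free nilpotent group which do not commute with their commutator -/
theorem invEq_of_nilpotent {Q : Type} [Group Q]
    (htf : ∀ g : Q, ∀ n : ℕ, 0 < n → g ^ n = 1 → g = 1) (N : ℕ) (hN : lcs Q N = ⊥) (a b : Q)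
    (hab : ¬ (⁅⁅a, b⁆, a⁆ = 1 ∧ ⁅⁅a, b⁆, b⁆ = 1)) :
    ∃ α β : ℤ, α ≠ 0 ∧ ((∀ u v : List Bool, evl a b u = evl a b v → InvEq α β u v) ∨
      (∀ u v : List Bool, evl b a u = evl b a v → InvEq α β u v)) := by
  classical
  let H : Subgroup Q := Subgroup.closure ({a, b} : Set Q)
  have ha : a ∈ H := Subgroup.subset_closure (by simp)
  have hb : b ∈ H := Subgroup.subset_closure (by simp)
  let a' : H := ⟨a, ha⟩
  let b' : H := ⟨b, hb⟩
  have hgen : Subgroup.closure ({a', b'} : Set H) = ⊤ := by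
    rw [eq_top_iff]
    rintro ⟨x, hx⟩ _
    have h1 : (Subgroup.closure ({a', b'} : Set H)).map H.subtype = H := by
      rw [MonoidHom.map_closure, Set.image_pair]
      rfl
    have h2 : x ∈ (Subgroup.closure ({a', b'} : Set H)).map H.subtype := by rw [h1]; exact hx
    obtain ⟨y, hy, hyx⟩ := h2
    have h3 : y = ⟨x, hx⟩ := Subtype.ext hyx
    rw [← h3]
    exact hy
  have htf' : ∀ g : H, ∀ n : ℕ, 0 < n → g ^ n = 1 → g = 1 := by
    intro g n hn hg
    apply Subtype.ext
    apply htf g n hn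
    have := congrArg Subtype.val hg
    simpa using this
  have hN' : lcs H N = ⊥ := by
    have h1 : (lcs H N).map H.subtype ≤ lcs Q N := by
      rw [Subgroup.map_lowerCentralSeries]
      have h2 : (⊤ : Subgroup H).map H.subtype ≤ ⊤ := le_top
      clear hN
      induction N with
      | zero => exact h2
      | succ n ih => exact Subgroup.commutator_mono ih h2
    rw [eq_bot_iff]
    intro x hx
    have h2 := h1 (Subgroup.mem_map_of_mem _ hx)
    rw [hN, Subgroup.mem_bot] at h2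
    exact (Subgroup.mem_bot).2 (Subtype.ext h2)
  obtain ⟨c1, c2, hrel⟩ := rel3_quot a' b'
  let π : H →* H ⧸ lcs H 3 := QuotientGroup.mk' _
  have hev : ∀ (x y : H) (u v : List Bool), evl (x : Q) (y : Q) u = evl (x : Q) (y : Q) v →
      evl (π x) (π y) u = evl (π x) (π y) v := by
    intro x y u v huv
    have h1 : H.subtype (evl x y u) = H.subtype (evl x y v) := by
      rw [map_evl, map_evl]
      exact huv
    have h2 : evl x y u = evl x y v := Subtype.ext h1
    rw [← map_evl, ← map_evl, h2]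
  have hfin : ∀ z : H ⧸ lcs H 3, ¬ (∃ n : ℕ, 0 < n ∧ z ^ n = 1) → ∀ n : ℤ, z ^ n = 1 → n = 0 := by
    intro z hz n hn
    by_contra hne
    apply hz
    refine ⟨n.natAbs, Int.natAbs_pos.2 hne, ?_⟩
    rcases Int.natAbs_eq n with h | h
    · rw [← zpow_natCast, ← h]
      exact hn
    · have h2 : ((n.natAbs : ℕ) : ℤ) = -n := by omega
      rw [← zpow_natCast, h2, zpow_neg, hn, inv_one]
  by_cases h1 : ∃ n : ℕ, 0 < n ∧ c1 ^ n = 1
  · by_cases h2 : ∃ n : ℕ, 0 < n ∧ c2 ^ n = 1
    · exfalso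
      apply hab
      have h3 := class_two_of_torsion htf' N hN' hgen hrel h1 h2
      have h4 : ∀ x : H, ⁅⁅a', b'⁆, x⁆ = 1 := by
        intro x
        have h5 : ⁅⁅a', b'⁆, x⁆ ∈ lcs H 2 := lcs_comm 1 (lcs_comm 0 (Subgroup.mem_top _) _) _
        rw [h3] at h5
        exact (Subgroup.mem_bot).1 h5
      exact ⟨congrArg Subtype.val (h4 a'), congrArg Subtype.val (h4 b')⟩
    · have hrel' : Rel3 (π b') (π a') ((π ((b' * a')⁻¹ * (a' * b')))⁻¹) c2⁻¹ c1⁻¹ := by
        have q1 := hrel.hab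
        have q2 := hrel.hca
        have q3 := hrel.hcb
        have q4 := hrel.comm1
        have q5 := hrel.comm2
        refine ⟨?_, ?_, ?_, inv_mem hrel.z2, inv_mem hrel.z1⟩
        · rw [eq_mul_inv_iff_mul_eq]
          exact q1.symm
        · set c := (QuotientGroup.mk' (lcs H 3)) ((b' * a')⁻¹ * (a' * b')) with hc
          show c⁻¹ * π b' = π b' * c⁻¹ * c2⁻¹
          rw [eq_mul_inv_iff_mul_eq, eq_mul_inv_iff_mul_eq, mul_assoc, ← q5 c, mul_assoc, inv_mul_eq_iff_eq_mul,
            ← mul_assoc]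
          exact q3.symm
        · set c := (QuotientGroup.mk' (lcs H 3)) ((b' * a')⁻¹ * (a' * b')) with hc
          show c⁻¹ * π a' = π a' * c⁻¹ * c1⁻¹
          rw [eq_mul_inv_iff_mul_eq, eq_mul_inv_iff_mul_eq, mul_assoc, ← q4 c, mul_assoc, inv_mul_eq_iff_eq_mul,
            ← mul_assoc]
          exact q2.symm
      obtain ⟨α, β, hα, h3⟩ := hrel'.invEq (by
        intro n hn
        apply hfin c2 h2
        rw [inv_zpow, inv_eq_one] at hn
        exact hn)
      exact ⟨α, β, hα, Or.inr fun u v huv => h3 u v (hev b' a' u v huv)⟩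
  · obtain ⟨α, β, hα, h3⟩ := hrel.invEq (hfin c1 h1)
    exact ⟨α, β, hα, Or.inl fun u v huv => h3 u v (hev a' b' u v huv)⟩

end Pool.Agent.Lib.MP_eca5e6_al.Sp
end

section

/-!
# MP_eca5e6_al: a pair of letters which commute with their commutator, at the ends of an edge
-/

set_option autoImplicit false

namespace Pool.Agent.Lib.MP_eca5e6_al.Sp

open Filter Set Topology C2
open scoped commutatorElement

/-- area form and quadratic function which see a given commutator -/
theorem exists_area_pair {G : Type} [Group G] (N : Subgroup G) (hN : N.Normal)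
    (hN2 : ∀ x y z : G, ⁅⁅x, y⁆, z⁆ ∈ N) (a b : G) (hab : ∀ n : ℕ, 0 < n → ⁅a, b⁆ ^ n ∉ N) :
    ∃ (ω : G → G → ℝ) (φ : G → ℝ), (∀ g g' h, ω (g * g') h = ω g h + ω g' h) ∧
      (∀ g h h', ω g (h * h') = ω g h + ω g h') ∧ (∀ g, ω g g = 0) ∧
      (∀ g h, φ (g * h) = φ g + φ h + ω g h / 2) ∧ ω a b = 1 := by
  classical
  let Q := G ⧸ N
  let π : G →* Q := QuotientGroup.mk' N
  have hπ : Function.Surjective π := QuotientGroup.mk'_surjective N
  have hπ1 : ∀ g, π g = 1 ↔ g ∈ N := fun g => QuotientGroup.eq_one_iff g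
  have hcen : ∀ x y : Q, ⁅x, y⁆ ∈ Subgroup.center Q := by
    intro x y
    obtain ⟨x, rfl⟩ := hπ x
    obtain ⟨y, rfl⟩ := hπ y
    rw [Subgroup.mem_center_iff]
    intro z
    obtain ⟨z, rfl⟩ := hπ z
    rw [← map_commutatorElement]
    have e := (hπ1 _).2 (hN2 x y z)
    rw [map_commutatorElement, commutatorElement_eq_one_iff_mul_comm] at e
    exact e.symm
  have hst : ¬ IsOfFinOrder ⁅π a, π b⁆ := by
    rw [isOfFinOrder_iff_pow_eq_one]
    rintro ⟨n, hn, h⟩
    rw [← map_commutatorElement, ← map_pow, hπ1] at h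
    exact hab n hn h
  obtain ⟨ℓ, hℓ1, hℓ⟩ := exists_ell ⁅π a, π b⁆ (hcen _ _) hst
  have q1 : ∀ g g' h : Q, ℓ ⁅g * g', h⁆ = ℓ ⁅g, h⁆ + ℓ ⁅g', h⁆ := by
    intro g g' h
    rw [c2_mul_left hcen, hℓ _ (hcen _ _) _ (hcen _ _)]
  have q2 : ∀ g h h' : Q, ℓ ⁅g, h * h'⁆ = ℓ ⁅g, h⁆ + ℓ ⁅g, h'⁆ := by
    intro g h h'
    rw [c2_mul_right hcen, hℓ _ (hcen _ _) _ (hcen _ _)]
  have q0 : ℓ 1 = 0 := by
    have e := hℓ 1 (one_mem _) 1 (one_mem _)
    rw [mul_one] at e
    linarith
  have q3 : ∀ g : Q, ℓ ⁅g, g⁆ = 0 := by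
    intro g
    rw [commutatorElement_self, q0]
  obtain ⟨φ, hφ⟩ := exists_quad (fun g h => ℓ ⁅g, h⁆) q1 q2 q3 (Subgroup.center Q) ℓ hℓ hcen
    (fun _ _ => rfl) (by
      intro c hc g
      have e : ⁅c, g⁆ = 1 := by
        rw [commutatorElement_eq_one_iff_mul_comm]
        exact (Subgroup.mem_center_iff.1 hc g).symm
      simp only [e, q0])
  refine ⟨fun g h => ℓ ⁅π g, π h⁆, fun g => φ (π g), ?_, ?_, ?_, ?_, ?_⟩
  · intro g g' h
    simp only [map_mul, q1]
  · intro g h h'
    simp only [map_mul, q2]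
  · intro g
    exact q3 _
  · intro g h
    simp only [map_mul, hφ]
  · simp only [hℓ1]

section form

variable {G : Type} [Group G] {ω : G → G → ℝ}

theorem form_comm (h2 : ∀ g h h', ω g (h * h') = ω g h + ω g h') (x : G) :
    ∀ c ∈ commutator G, ω x c = 0 := by
  let f : G →* Multiplicative ℝ :=
    { toFun := fun g => Multiplicative.ofAdd (ω x g)
      map_one' := by
        have e := h2 x 1 1
        rw [mul_one] at e
        have : ω x 1 = 0 := by linarith
        rw [this]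
        rfl
      map_mul' := by
        intro g h
        rw [h2]
        rfl }
  have h : commutator G ≤ f.ker := Abelianization.commutator_subset_ker f
  intro c hc
  have := h hc
  rw [MonoidHom.mem_ker] at this
  exact this

theorem form_pow (h2 : ∀ g h h', ω g (h * h') = ω g h + ω g h') (x y : G) (n : ℕ) :
    ω x (y ^ n) = n * ω x y := by
  induction n with
  | zero =>
    have e := h2 x 1 1
    rw [mul_one] at e
    simp only [pow_zero, Nat.cast_zero, zero_mul]
    linarith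
  | succ n ih =>
    rw [pow_succ, h2, ih]
    push_cast
    ring

theorem form_anti (h1 : ∀ g g' h, ω (g * g') h = ω g h + ω g' h)
    (h2 : ∀ g h h', ω g (h * h') = ω g h + ω g h') (h3 : ∀ g, ω g g = 0) (g h : G) :
    ω g h = -ω h g := by
  have e := h3 (g * h)
  rw [h1, h2, h2, h3, h3] at e
  linarith

/-- values of the form on an element whose image is on the segment between a and b -/
theorem form_seg (h2 : ∀ g h h', ω g (h * h') = ω g h + ω g h') {a b s c : G} {n i : ℕ}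
    (hc : c ∈ commutator G) (hi : i ≤ n) (hs : s ^ n = a ^ (n - i) * b ^ i * c) (x : G) :
    (n : ℝ) * ω x s = (n - i : ℝ) * ω x a + i * ω x b := by
  have e := congrArg (ω x) hs
  rw [form_pow h2, h2, h2, form_pow h2, form_pow h2, form_comm h2 x c hc, add_zero,
    Nat.cast_sub hi] at e
  exact e

end form

variable {G : Type} [Group G] {S : Finset G} {Γ : SimpleGraph G}

/-- the case of a trivial finite subgroup -/
theorem pair_main (hS : Subgroup.closure (S : Set G) = ⊤)
    (hΓ : Γ = SimpleGraph.fromRel (fun g h : G => g⁻¹ * h ∈ S)) {μ : G → ℝ}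
    (hμ : ∀ g h, μ (g * h) = μ g + μ h) (hle : ∀ s, s ∈ S ∨ s⁻¹ ∈ S → μ s ≤ 1) {a b : G}
    (ha : a ∈ S ∨ a⁻¹ ∈ S) (hbS : b ∈ S ∨ b⁻¹ ∈ S) (hμa : μ a = 1) (hμb : μ b = 1)
    (hseg : ∀ s, s ∈ S ∨ s⁻¹ ∈ S → μ s = 1 → ∃ n i : ℕ, 0 < n ∧ i ≤ n ∧
      ∃ c ∈ commutator G, s ^ n = a ^ (n - i) * b ^ i * c)
    (h1 : ⁅⁅a, b⁆, a⁆ = 1) (h2 : ⁅⁅a, b⁆, b⁆ = 1)
    (hinf : ∀ n : ℕ, 0 < n → ⁅a, b⁆ ^ n ∉ (⊤ : Subgroup G).lowerCentralSeries 2) :
    ¬ (closure (range (hb (fun x y : G => Γ.dist x y) 1)) \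
      range (hb (fun x y : G => Γ.dist x y) 1)).Countable := by
  classical
  obtain ⟨ω, φ, w1, w2, w3, w4, w5⟩ := exists_area_pair ((⊤ : Subgroup G).lowerCentralSeries 2) inferInstance
    (fun x y z => Subgroup.commutator_mem_commutator
      (Subgroup.commutator_mem_commutator (Subgroup.mem_top x) (Subgroup.mem_top y))
      (Subgroup.mem_top z)) a b hinf
  have hanti := form_anti w1 w2 w3
  set L : Finset G := S ∪ S.image (fun t => t⁻¹) with hLdef
  have hL : ∀ s, s ∈ L ↔ s ∈ S ∨ s⁻¹ ∈ S := by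
    intro s
    rw [hLdef, Finset.mem_union, Finset.mem_image]
    constructor
    · rintro (h | ⟨t, ht, rfl⟩)
      · exact Or.inl h
      · exact Or.inr (by rwa [inv_inv])
    · rintro (h | h)
      · exact Or.inl h
      · exact Or.inr ⟨s⁻¹, h, inv_inv s⟩
  have hlam : ∀ s ∈ L, μ s = 1 → ∃ l : ℝ, 0 ≤ l ∧ l ≤ 1 ∧ ∀ x,
      ω x s = (1 - l) * ω x a + l * ω x b := by
    intro s hs hs1
    obtain ⟨n, i, hn, hi, c, hc, hsc⟩ := hseg s ((hL s).1 hs) hs1
    have hn' : (0 : ℝ) < n := by exact_mod_cast hn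
    refine ⟨i / n, by positivity, ?_, fun x => ?_⟩
    · rw [div_le_one hn']
      exact_mod_cast hi
    · have e := form_seg w2 hc hi hsc x
      field_simp
      linarith
  obtain ⟨z, hz, haz, hbz⟩ := pair_z (a := a) (b := b)
    (by
      rw [commutatorElement_eq_one_iff_mul_comm] at h1
      exact h1)
    (by
      rw [commutatorElement_eq_one_iff_mul_comm] at h2
      exact h2)
  refine classTwo_pair hS hΓ L hL w1 w2 w3 w4 ((hL a).2 ha) ((hL b).2 hbS) hμ
    (fun s hs => hle s ((hL s).1 hs)) hμa hμb (by rw [w5]; exact one_pos) ?_ ?_ hz haz hbz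
  · intro s hs hs1
    obtain ⟨l, hl0, hl1, hl⟩ := hlam s hs hs1
    rw [hl a, w3, w5]
    constructor <;> linarith
  · intro s hs t ht hs1 ht1
    obtain ⟨l, hl0, hl1, hl⟩ := hlam s hs hs1
    obtain ⟨m, hm0, hm1, hm⟩ := hlam t ht ht1
    have e1 : ω a b = 1 := w5
    have e2 : ω b a = -1 := by rw [hanti, w5]
    have e3 : ω a s = l := by rw [hl a, w3, e1]; ring
    have e4 : ω a t = m := by rw [hm a, w3, e1]; ring
    have e5 : ω s a = -l := by rw [hanti, e3]
    have e6 : ω s b = 1 - l := by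
      rw [hanti, hl b, e2, w3]
      ring
    rw [hm s, e5, e6, e3, e4]
    ring

/-- the pair theorem, modulo a finite normal subgroup -/
theorem pair_fin (hS : Subgroup.closure (S : Set G) = ⊤)
    (hΓ : Γ = SimpleGraph.fromRel (fun g h : G => g⁻¹ * h ∈ S)) {μ : G → ℝ}
    (hμ : ∀ g h, μ (g * h) = μ g + μ h) (hle : ∀ s, s ∈ S ∨ s⁻¹ ∈ S → μ s ≤ 1)
    (T : Subgroup G) (hT : T.Normal) (hTf : Finite T) {a b : G}
    (ha : a ∈ S ∨ a⁻¹ ∈ S) (hbS : b ∈ S ∨ b⁻¹ ∈ S) (hμa : μ a = 1) (hμb : μ b = 1)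
    (hseg : ∀ s, s ∈ S ∨ s⁻¹ ∈ S → μ s = 1 → ∃ n i : ℕ, 0 < n ∧ i ≤ n ∧
      ∃ c ∈ commutator G ⊔ T, s ^ n = a ^ (n - i) * b ^ i * c)
    (h1 : ⁅⁅a, b⁆, a⁆ ∈ T) (h2 : ⁅⁅a, b⁆, b⁆ ∈ T)
    (hinf : ∀ n : ℕ, 0 < n → ⁅a, b⁆ ^ n ∉ (⊤ : Subgroup G).lowerCentralSeries 2) :
    ¬ (closure (range (hb (fun x y : G => Γ.dist x y) 1)) \
      range (hb (fun x y : G => Γ.dist x y) 1)).Countable := by
  classical
  apply lift_finite hS hΓ T hT hTf
  intro S' Γ' hS' hSq hΓ'
  let π : G →* G ⧸ T := QuotientGroup.mk' T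
  have hπ : Function.Surjective π := QuotientGroup.mk'_surjective T
  have hπ1 : ∀ g, π g = 1 ↔ g ∈ T := fun g => QuotientGroup.eq_one_iff g
  have hlet : ∀ x : G ⧸ T, x ∈ S' ∨ x⁻¹ ∈ S' → ∃ s, (s ∈ S ∨ s⁻¹ ∈ S) ∧ π s = x := by
    rintro x (hx | hx)
    · obtain ⟨s, hs, hsx⟩ := (hS' x).1 hx
      exact ⟨s, Or.inl hs, hsx⟩
    · obtain ⟨s, hs, hsx⟩ := (hS' _).1 hx
      refine ⟨s⁻¹, Or.inr (by rwa [inv_inv]), ?_⟩
      show π s⁻¹ = x
      rw [map_inv]
      exact inv_eq_iff_eq_inv.2 hsx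
  have hlet2 : ∀ s, (s ∈ S ∨ s⁻¹ ∈ S) → (π s ∈ S' ∨ (π s)⁻¹ ∈ S') := by
    rintro s (hs | hs)
    · exact Or.inl ((hS' _).2 ⟨s, hs, rfl⟩)
    · exact Or.inr ((hS' _).2 ⟨s⁻¹, hs, map_inv _ _⟩)
  let f : G →* Multiplicative ℝ :=
    { toFun := fun g => Multiplicative.ofAdd (μ g)
      map_one' := by
        have e := hμ 1 1
        rw [mul_one] at e
        have : μ 1 = 0 := by linarith
        rw [this]
        rfl
      map_mul' := by
        intro g h
        rw [hμ]
        rfl }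
  have hf : T ≤ f.ker := by
    intro t ht
    rw [MonoidHom.mem_ker]
    have h3 : IsOfFinOrder (⟨t, ht⟩ : T) := isOfFinOrder_of_finite _
    obtain ⟨n, hn, h4⟩ := isOfFinOrder_iff_pow_eq_one.1 h3
    have h5 : t ^ n = 1 := congrArg Subtype.val h4
    have h6 : (n : ℝ) * μ t = 0 := by
      have h7 : ∀ k : ℕ, μ (t ^ k) = k * μ t := by
        intro k
        induction k with
        | zero =>
          have e := hμ 1 1
          rw [mul_one] at e
          simp only [pow_zero, Nat.cast_zero, zero_mul]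
          linarith
        | succ k ih =>
          rw [pow_succ, hμ, ih]
          push_cast
          ring
      rw [← h7, h5]
      have e := hμ 1 1
      rw [mul_one] at e
      linarith
    have hn' : (n : ℝ) ≠ 0 := by exact_mod_cast hn.ne'
    have h8 : μ t = 0 := by
      rcases mul_eq_zero.1 h6 with h | h
      · exact absurd h hn'
      · exact h
    show Multiplicative.ofAdd (μ t) = 1
    rw [h8]
    rfl
  let F : G ⧸ T →* Multiplicative ℝ := QuotientGroup.lift T f hf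
  have hF : ∀ g, (F (π g)).toAdd = μ g := fun g => rfl
  refine pair_main (μ := fun x => (F x).toAdd) hSq hΓ' ?_ ?_ (a := π a) (b := π b)
    (hlet2 a ha) (hlet2 b hbS) hμa hμb ?_ ?_ ?_ ?_
  · intro g h
    rw [map_mul]
    rfl
  · intro x hx
    obtain ⟨s, hs, rfl⟩ := hlet x hx
    exact hle s hs
  · intro x hx hx1
    obtain ⟨s, hs, rfl⟩ := hlet x hx
    obtain ⟨n, i, hn, hi, c, hc, hsc⟩ := hseg s hs hx1
    refine ⟨n, i, hn, hi, π c, ?_, ?_⟩
    · have e1 : (commutator G ⊔ T).map π ≤ commutator (G ⧸ T) := by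
        rw [Subgroup.map_sup, sup_le_iff]
        constructor
        · rw [Subgroup.map_le_iff_le_comap, commutator_def, Subgroup.commutator_le]
          intro x _ y _
          rw [Subgroup.mem_comap, map_commutatorElement]
          exact Subgroup.commutator_mem_commutator (Subgroup.mem_top _) (Subgroup.mem_top _)
        · rintro _ ⟨t, ht, rfl⟩
          have := (hπ1 t).2 ht
          rw [this]
          exact one_mem _
      exact e1 (Subgroup.mem_map_of_mem _ hc)
    · rw [← map_pow, hsc, map_mul, map_mul, map_pow, map_pow]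
  · rw [← map_commutatorElement, ← map_commutatorElement, hπ1]
    exact h1
  · rw [← map_commutatorElement, ← map_commutatorElement, hπ1]
    exact h2
  · intro n hn hmem
    rw [← map_commutatorElement, ← map_pow] at hmem
    -- some power of the commutator is in the third term
    have e1 : (⊤ : Subgroup (G ⧸ T)).lowerCentralSeries 2 =
        ((⊤ : Subgroup G).lowerCentralSeries 2).map π := by
      rw [Subgroup.map_lowerCentralSeries, Subgroup.map_top_of_surjective π hπ]
    rw [e1] at hmem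
    obtain ⟨g, hg, hgc⟩ := hmem
    have h3 : g⁻¹ * ⁅a, b⁆ ^ n ∈ T := by
      rw [← hπ1, map_mul, map_inv, hgc, inv_mul_cancel]
    obtain ⟨k, hk, h4⟩ := isOfFinOrder_iff_pow_eq_one.1
      (isOfFinOrder_of_finite (⟨_, h3⟩ : T))
    have h5 : (g⁻¹ * ⁅a, b⁆ ^ n) ^ k = 1 := congrArg Subtype.val h4
    apply hinf (n * k) (Nat.mul_pos hn hk)
    let ρ : G →* G ⧸ ((⊤ : Subgroup G).lowerCentralSeries 2) := QuotientGroup.mk' _
    have h6 : ρ (⁅a, b⁆ ^ (n * k)) = 1 := by
      have h7 : ρ g = 1 := (QuotientGroup.eq_one_iff g).2 hg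
      have h8 := congrArg ρ h5
      rw [map_pow, map_mul, map_inv, h7, inv_one, one_mul, map_one, ← map_pow, ← pow_mul] at h8
      exact h8
    exact (QuotientGroup.eq_one_iff _).1 h6

end Pool.Agent.Lib.MP_eca5e6_al.Sp
end

section

/-!
# MP_eca5e6_al, sparse rays: the rays
-/

set_option autoImplicit false

namespace Pool.Agent.Lib.MP_eca5e6_al.Sp

open Finset

/-- gaps of a sequence of positions -/
def gp (p : ℕ → ℕ) : ℕ → ℕ
  | 0 => p 0
  | n + 1 => p (n + 1) - p n

/-- the word with n letters b at the positions p 0, ..., p (n-1) -/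
def wd (p : ℕ → ℕ) : ℕ → List Bool
  | 0 => []
  | n + 1 => wd p n ++ (List.replicate (gp p n) false ++ [true])

theorem ny_wd (p : ℕ → ℕ) (n : ℕ) : ny (wd p n) = n := by
  induction n with
  | zero => simp [wd, ny]
  | succ n ih =>
    rw [wd, ny_append, ny_append, ih, ny_replicate]
    simp [ny]

theorem nx_wd (p : ℕ → ℕ) (hp : ∀ i, p i ≤ p (i + 1)) (n : ℕ) : nx (wd p (n + 1)) = p n := by
  induction n with
  | zero =>
    rw [wd, nx_append, nx_append, nx_replicate]
    simp [wd, nx, gp]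
  | succ n ih =>
    rw [wd, nx_append, nx_append, nx_replicate, ih]
    simp only [nx, gp]
    have := hp n
    omega

theorem pf_wd (p : ℕ → ℕ) (hp : ∀ i, p i ≤ p (i + 1)) (n : ℕ) : ∀ i, i < n →
    pf (wd p n) i = p i := by
  induction n with
  | zero => intro i hi; omega
  | succ n ih =>
    intro i hi
    rcases Nat.lt_succ_iff_lt_or_eq.1 hi with hi' | hi'
    · rw [wd, pf_append_lt _ _ _ (by rw [ny_wd]; exact hi')]
      exact ih i hi'
    · subst hi'
      have e := pf_append_ge (wd p i) (List.replicate (gp p i) false ++ [true]) 0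
      rw [ny_wd, Nat.add_zero, pf_replicate] at e
      rw [wd, e]
      cases i with
      | zero => simp [wd, nx, gp, pf]
      | succ i =>
        rw [nx_wd p hp]
        simp only [gp, pf]
        have := hp i
        omega

theorem wd_append (p : ℕ → ℕ) {n m : ℕ} (h : n ≤ m) : ∃ v, wd p m = wd p n ++ v := by
  induction m, h using Nat.le_induction with
  | base => exact ⟨[], by simp⟩
  | succ m _ ih =>
    obtain ⟨v, hv⟩ := ih
    exact ⟨v ++ (List.replicate (gp p m) false ++ [true]), by rw [wd, hv, List.append_assoc]⟩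

/-- partial sums of the fast sequence -/
def Dp (b : ℕ) : ℕ → ℕ
  | 0 => 0
  | k + 1 => Dp b k + (bd b k (Dp b k) + 2)

/-- sparse positions, one for each sequence of bits -/
def ps (b : ℕ) (ε : ℕ → Bool) (k : ℕ) : ℕ := bd b k (Dp b k) + 1 + (if ε k then 1 else 0)

theorem ps_sum_le (b : ℕ) (ε : ℕ → Bool) (k : ℕ) : ∑ i ∈ range k, ps b ε i ≤ Dp b k := by
  induction k with
  | zero => simp [Dp]
  | succ k ih =>
    rw [sum_range_succ, Dp]
    apply Nat.add_le_add ih
    unfold ps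
    split_ifs <;> omega

theorem bd_mono (b k : ℕ) {D D' : ℕ} (h : D ≤ D') : bd b k D ≤ bd b k D' := by
  unfold bd
  exact Nat.mul_le_mul_left _ (Nat.pow_le_pow_left (by omega) 2)

theorem le_bd (b k D : ℕ) : D ≤ bd b k D := by
  unfold bd
  have h1 : 1 ≤ 16 * (b + 1) * (k + 1) := Nat.mul_pos (by omega) (by omega)
  have h2 : D + 1 ≤ (D + 1) ^ 2 := by
    rw [sq]
    exact Nat.le_mul_of_pos_left _ (by omega)
  have h3 : (D + 1) ^ 2 ≤ 16 * (b + 1) * (k + 1) * (D + 1) ^ 2 := Nat.le_mul_of_pos_left _ h1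
  omega

theorem ps_big (b : ℕ) (ε : ℕ → Bool) (k : ℕ) :
    bd b k (∑ i ∈ range k, ps b ε i) < ps b ε k := by
  have h1 := bd_mono b k (ps_sum_le b ε k)
  unfold ps at *
  omega

theorem ps_mono (b : ℕ) (ε : ℕ → Bool) (k : ℕ) : ps b ε k ≤ ps b ε (k + 1) := by
  have h1 := ps_big b ε (k + 1)
  have h2 := le_bd b (k + 1) (∑ i ∈ range (k + 1), ps b ε i)
  rw [sum_range_succ] at h2
  rw [sum_range_succ] at h1
  omega

/-- sparse words with different bits are separated by the invariants -/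
theorem sep {α β : ℤ} (hα : α ≠ 0) (ε ε' : ℕ → Bool) (m n : ℕ) (v : List Bool)
    (h : InvEq α β (wd (ps β.natAbs ε) m) (wd (ps β.natAbs ε') n ++ v)) :
    ∀ i, i < n → ε i = ε' i := by
  obtain ⟨_, h2, h3, h4⟩ := h
  have hn : n ≤ m := by
    rw [ny_append, ny_wd, ny_wd] at h2
    omega
  rw [← h2, ny_wd] at h4
  have e1 : ∀ i ∈ range m, pf (wd (ps β.natAbs ε) m) i = ps β.natAbs ε i := fun i hi =>
    pf_wd _ (ps_mono _ _) m i (mem_range.1 hi)
  have s1 := sg_eq (wd (ps β.natAbs ε) m)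
  have s2 := sg_eq (wd (ps β.natAbs ε') n ++ v)
  rw [← h2, ny_wd] at s2
  rw [ny_wd] at s1
  rw [h3, s2] at s1
  have f1 : ∑ i ∈ range m, (pf (wd (ps β.natAbs ε) m) i : ℤ) =
      ∑ i ∈ range m, (ps β.natAbs ε i : ℤ) := sum_congr rfl fun i hi => by rw [e1 i hi]
  have f2 : ∑ i ∈ range m, (pf (wd (ps β.natAbs ε) m) i : ℤ) ^ 2 =
      ∑ i ∈ range m, (ps β.natAbs ε i : ℤ) ^ 2 := sum_congr rfl fun i hi => by rw [e1 i hi]
  have f3 : ∑ i ∈ range m, (i : ℤ) * (pf (wd (ps β.natAbs ε) m) i : ℤ) =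
      ∑ i ∈ range m, (i : ℤ) * (ps β.natAbs ε i : ℤ) := sum_congr rfl fun i hi => by rw [e1 i hi]
  rw [f1] at s1
  rw [f2, f3] at h4
  have key := uniq α β hα (ps β.natAbs ε) (pf (wd (ps β.natAbs ε') n ++ v)) (pf_mono _)
    (ps_big _ _) m s1 (by linear_combination -h4)
  intro i hi
  have k1 := key i (by omega)
  rw [pf_append_lt _ _ _ (by rw [ny_wd]; exact hi), pf_wd _ (ps_mono _ _) n i hi] at k1
  unfold ps at k1
  revert k1
  cases ε i <;> cases ε' i <;> simp

end Pool.Agent.Lib.MP_eca5e6_al.Sp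
end

section

/-!
# MP_eca5e6_al, sparse rays: uncountably many Busemann functions
-/

set_option autoImplicit false

namespace Pool.Agent.Lib.MP_eca5e6_al.Sp

open Filter Set Topology C2

theorem not_countable_bits : ¬ Countable (ℕ → Bool) := by
  intro h
  obtain ⟨f, hf⟩ := exists_surjective_nat (ℕ → Bool)
  obtain ⟨n, hn⟩ := hf (fun i => !(f i i))
  have := congrFun hn n
  simp at this

variable {G : Type} [Group G] {S : Finset G} {Γ : SimpleGraph G} {a b : G}

theorem ln_evl_le (hS : Subgroup.closure (S : Set G) = ⊤)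
    (hΓ : Γ = SimpleGraph.fromRel (fun g h : G => g⁻¹ * h ∈ S))
    (ha : a ∈ S ∨ a⁻¹ ∈ S) (hb : b ∈ S ∨ b⁻¹ ∈ S)
    (u : List Bool) : ln Γ (evl a b u) ≤ u.length := by
  induction u with
  | nil => simp [evl, ln_one]
  | cons t u ih =>
    cases t
    · rw [evl, List.length_cons]
      have h1 := ln_mul hS hΓ a (evl a b u)
      have h2 := ln_letter hΓ ha
      omega
    · rw [evl, List.length_cons]
      have h1 := ln_mul hS hΓ b (evl a b u)
      have h2 := ln_letter hΓ hb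
      omega

/-- the core: geodesic positive words, whose tight continuations are seen by the invariants -/
theorem sparse_core (hS : Subgroup.closure (S : Set G) = ⊤)
    (hΓ : Γ = SimpleGraph.fromRel (fun g h : G => g⁻¹ * h ∈ S)) {α β : ℤ} (hα : α ≠ 0)
    (hlen : ∀ u : List Bool, ln Γ (evl a b u) = u.length)
    (hinv : ∀ (u u' : List Bool) (w : List G), (∀ s ∈ w, s ∈ S ∨ s⁻¹ ∈ S) →
      evl a b u' * w.prod = evl a b u → w.length + u'.length = u.length →
      ∃ v : List Bool, InvEq α β u (u' ++ v)) :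
    ¬ (closure (range (hb (fun x y : G => Γ.dist x y) 1)) \
      range (hb (fun x y : G => Γ.dist x y) 1)).Countable := by
  intro hcount
  set d : G → G → ℕ := fun x y : G => Γ.dist x y with hd
  set W : (ℕ → Bool) → ℕ → List Bool := fun ε n => wd (ps β.natAbs ε) n with hW
  have h1 := fun ε : ℕ → Bool => exists_lim (cay_geoDist hS hΓ) 1 (fun n => evl a b (W ε n))
    (hyperfilter ℕ)
  choose k hk1 hk2 using h1
  have hval : ∀ ε n, k ε (evl a b (W ε n)) = -((W ε n).length : ℤ) := by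
    intro ε n
    obtain ⟨m, hm1, hm2⟩ := ((hk2 ε (evl a b (W ε n))).and (ev_ge n)).exists
    obtain ⟨v, hv⟩ := wd_append (ps β.natAbs ε) hm2
    rw [← hm1, hb_eq_ln hS hΓ]
    have e1 : W ε m = W ε n ++ v := hv
    rw [e1, evl_append, inv_mul_cancel_left, hlen, ← evl_append, hlen, List.length_append]
    push_cast
    ring
  have hlong : ∀ ε n, n ≤ (W ε n).length := by
    intro ε n
    have e1 := nx_add_ny (W ε n)
    have e2 : ny (W ε n) = n := ny_wd _ n
    omega
  have hnot : ∀ ε, k ε ∉ range (hb d 1) := by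
    rintro ε ⟨x, hx⟩
    have e1 := hval ε (ln Γ x + 1)
    rw [← hx, hb_eq_ln hS hΓ] at e1
    have e2 := hlong ε (ln Γ x + 1)
    omega
  have hinj : ∀ ε ε', k ε = k ε' → ∀ n i, i < n → ε i = ε' i := by
    intro ε ε' hee n
    have e1 := hval ε' n
    rw [← hee] at e1
    obtain ⟨m, hm⟩ := (hk2 ε (evl a b (W ε' n))).exists
    rw [e1, hb_eq_ln hS hΓ, hlen] at hm
    obtain ⟨w, hw1, hw2, hw3⟩ := exists_word hS hΓ _ ((evl a b (W ε' n))⁻¹ * evl a b (W ε m)) rfl
    obtain ⟨v, hv⟩ := hinv (W ε m) (W ε' n) w hw1 (by rw [hw2, mul_inv_cancel_left]) (by omega)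
    exact sep hα ε ε' m n v hv
  apply not_countable_bits
  rw [← Set.countable_univ_iff]
  refine Set.MapsTo.countable_of_injOn (f := k) (t := closure (range (hb d 1)) \ range (hb d 1))
    (fun ε _ => ⟨hk1 ε, hnot ε⟩) ?_ hcount
  intro ε _ ε' _ hee
  funext i
  exact hinj ε ε' hee (i + 1) i (Nat.lt_succ_self i)

end Pool.Agent.Lib.MP_eca5e6_al.Sp
end

section

/-!
# MP_eca5e6_al, sparse rays: faces
-/

set_option autoImplicit false

namespace Pool.Agent.Lib.MP_eca5e6_al.Sp

open Filter Set Topology C2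
open scoped commutatorElement

/-- Faces of a finite set `S` of group elements: the letters (elements of `S` or inverses of such)
at which a homomorphism `μ : G → ℝ` with `μ ≤ 1` on all letters is equal to 1, and, recursively,
the elements of a face `F` at which a homomorphism from the subgroup generated by `F` to the reals
attains its maximum `c` over `F`. -/
inductive IsFace {G : Type} [Group G] (S : Finset G) : Set G → Prop
  | base (μ : G → ℝ) (hμ : ∀ g h, μ (g * h) = μ g + μ h)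
      (hle : ∀ s, s ∈ S ∨ s⁻¹ ∈ S → μ s ≤ 1) : IsFace S {s | (s ∈ S ∨ s⁻¹ ∈ S) ∧ μ s = 1}
  | step (F : Set G) (hF : IsFace S F) (ν : Subgroup.closure F → ℝ)
      (hν : ∀ g h, ν (g * h) = ν g + ν h) (c : ℝ)
      (hle : ∀ (s : G) (hs : s ∈ F), ν ⟨s, Subgroup.subset_closure hs⟩ ≤ c) :
      IsFace S {s | ∃ hs : s ∈ F, ν ⟨s, Subgroup.subset_closure hs⟩ = c}

variable {G : Type} [Group G] {S : Finset G} {Γ : SimpleGraph G}

theorem add_one {K : Type} [Group K] {μ : K → ℝ} (hμ : ∀ g h, μ (g * h) = μ g + μ h) :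
    μ 1 = 0 := by
  have := hμ 1 1
  rw [mul_one] at this
  linarith

/-- words in letters with value at most c -/
theorem le_word {K : Type} [Group K] {μ : K → ℝ} (hμ : ∀ g h, μ (g * h) = μ g + μ h) (c : ℝ)
    (w : List K) (hw : ∀ s ∈ w, μ s ≤ c) :
    μ w.prod ≤ c * w.length ∧ (μ w.prod = c * w.length → ∀ s ∈ w, μ s = c) := by
  induction w with
  | nil => simp [add_one hμ]
  | cons s w ih =>
    obtain ⟨h1, h2⟩ := ih fun t ht => hw t (List.mem_cons_of_mem s ht)
    have h3 := hw s List.mem_cons_self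
    rw [List.prod_cons, hμ, List.length_cons]
    push_cast
    refine ⟨by linarith, fun h4 => ?_⟩
    intro t ht
    rcases List.mem_cons.1 ht with rfl | ht
    · linarith
    · exact h2 (by linarith) t ht

theorem eq_word {K : Type} [Group K] {μ : K → ℝ} (hμ : ∀ g h, μ (g * h) = μ g + μ h) (c : ℝ)
    (w : List K) (hw : ∀ s ∈ w, μ s = c) : μ w.prod = c * w.length := by
  induction w with
  | nil => simp [add_one hμ]
  | cons s w ih =>
    rw [List.prod_cons, hμ, List.length_cons, ih fun t ht => hw t (List.mem_cons_of_mem s ht),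
      hw s List.mem_cons_self]
    push_cast
    ring

theorem IsFace.letter {F : Set G} (hF : IsFace S F) : ∀ s ∈ F, s ∈ S ∨ s⁻¹ ∈ S := by
  induction hF with
  | base μ hμ hle => exact fun s hs => hs.1
  | step F _ ν hν c hle ih =>
    rintro s ⟨hs, _⟩
    exact ih s hs

/-- lift of a word to the subgroup generated by its letters -/
theorem lift_word (F : Set G) (w : List G) (hw : ∀ s ∈ w, s ∈ F) :
    ∃ w' : List (Subgroup.closure F), w'.map (Subgroup.closure F).subtype = w := by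
  induction w with
  | nil => exact ⟨[], rfl⟩
  | cons s w ih =>
    obtain ⟨w', hw'⟩ := ih fun t ht => hw t (List.mem_cons_of_mem s ht)
    refine ⟨⟨s, Subgroup.subset_closure (hw s List.mem_cons_self)⟩ :: w', ?_⟩
    rw [List.map_cons, hw']
    rfl

/-- products of letters of a face are geodesic, and only letters of the face occur in the other
geodesic words -/
theorem IsFace.geo {F : Set G} (hF : IsFace S F) : ∀ w u : List G,
    (∀ s ∈ w, s ∈ S ∨ s⁻¹ ∈ S) → (∀ s ∈ u, s ∈ F) → w.prod = u.prod →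
    u.length ≤ w.length ∧ (w.length = u.length → ∀ s ∈ w, s ∈ F) := by
  induction hF with
  | base μ hμ hle =>
    intro w u hw hu hwu
    have h1 := eq_word hμ 1 u fun s hs => (hu s hs).2
    obtain ⟨h2, h3⟩ := le_word hμ 1 w fun s hs => hle s (hw s hs)
    rw [hwu, h1, one_mul, one_mul] at h2
    refine ⟨by exact_mod_cast h2, fun h4 s hs => ⟨hw s hs, ?_⟩⟩
    apply h3 _ s hs
    rw [hwu, h1, h4]
  | step F hF ν hν c hle ih =>
    intro w u hw hu hwu
    have hu' : ∀ s ∈ u, s ∈ F := fun s hs => (hu s hs).1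
    obtain ⟨h1, h2⟩ := ih w u hw hu' hwu
    refine ⟨h1, fun h3 => ?_⟩
    have hw' := h2 h3
    obtain ⟨w', hw1⟩ := lift_word F w hw'
    obtain ⟨u', hu1⟩ := lift_word F u hu'
    have e1 : w'.prod = u'.prod := by
      apply Subtype.ext
      have e2 : (Subgroup.closure F).subtype w'.prod = w.prod := by rw [map_list_prod, hw1]
      have e3 : (Subgroup.closure F).subtype u'.prod = u.prod := by rw [map_list_prod, hu1]
      exact e2.trans (hwu.trans e3.symm)
    have l1 : w'.length = w.length := by rw [← hw1, List.length_map]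
    have l2 : u'.length = u.length := by rw [← hu1, List.length_map]
    have m1 : ∀ s ∈ u', ν s = c := by
      intro s hs
      have : (s : G) ∈ u := by
        rw [← hu1]
        exact List.mem_map_of_mem hs
      obtain ⟨_, h4⟩ := hu _ this
      exact h4
    have m2 : ∀ s ∈ w', ν s ≤ c := by
      intro s hs
      have : (s : G) ∈ w := by
        rw [← hw1]
        exact List.mem_map_of_mem hs
      exact hle s (hw' _ this)
    have h5 := eq_word hν c u' m1
    obtain ⟨_, h6⟩ := le_word hν c w' m2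
    have h7 := h6 (by rw [e1, h5, l1, l2, h3])
    intro s hs
    rw [← hw1, List.mem_map] at hs
    obtain ⟨s', hs', rfl⟩ := hs
    have h8 : (s' : G) ∈ F := by
      apply hw'
      rw [← hw1]
      exact List.mem_map_of_mem hs'
    exact ⟨h8, h7 s' hs'⟩

/-- the letters of a positive word -/
def lst (a b : G) (u : List Bool) : List G := u.map fun t => if t then b else a

theorem lst_prod (a b : G) (u : List Bool) : (lst a b u).prod = evl a b u := by
  induction u with
  | nil => simp [lst, evl]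
  | cons t u ih =>
    unfold lst at ih
    cases t <;> simp [lst, evl, ih]

omit [Group G] in
theorem lst_length (a b : G) (u : List Bool) : (lst a b u).length = u.length := by
  simp [lst]

omit [Group G] in
theorem lst_mem {F : Set G} {a b : G} (ha : a ∈ F) (hb : b ∈ F) (u : List Bool) :
    ∀ s ∈ lst a b u, s ∈ F := by
  intro s hs
  simp only [lst, List.mem_map] at hs
  obtain ⟨t, _, rfl⟩ := hs
  cases t <;> simp [ha, hb]

theorem face_core (hS : Subgroup.closure (S : Set G) = ⊤)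
    (hΓ : Γ = SimpleGraph.fromRel (fun g h : G => g⁻¹ * h ∈ S)) {F : Set G} (hF : IsFace S F)
    {a b : G} (ha : a ∈ F) (hbF : b ∈ F) {Q : Type} [Group Q] (π : Subgroup.closure F →* Q)
    (htight : ∀ s : Subgroup.closure F, (s : G) ∈ F →
      π s = π ⟨a, Subgroup.subset_closure ha⟩ ∨ π s = π ⟨b, Subgroup.subset_closure hbF⟩)
    {α β : ℤ} (hα : α ≠ 0)
    (hinv : ∀ u v : List Bool,
      evl (π ⟨a, Subgroup.subset_closure ha⟩) (π ⟨b, Subgroup.subset_closure hbF⟩) u =
      evl (π ⟨a, Subgroup.subset_closure ha⟩) (π ⟨b, Subgroup.subset_closure hbF⟩) v →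
      InvEq α β u v) :
    ¬ (closure (range (hb (fun x y : G => Γ.dist x y) 1)) \
      range (hb (fun x y : G => Γ.dist x y) 1)).Countable := by
  set a' : Subgroup.closure F := ⟨a, Subgroup.subset_closure ha⟩ with ha'
  set b' : Subgroup.closure F := ⟨b, Subgroup.subset_closure hbF⟩ with hb'
  have hlet := hF.letter
  apply sparse_core (a := a) (b := b) hS hΓ hα
  · intro u
    apply le_antisymm (ln_evl_le hS hΓ (hlet a ha) (hlet b hbF) u)
    obtain ⟨w, hw1, hw2, hw3⟩ := exists_word hS hΓ (ln Γ (evl a b u)) _ rfl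
    have := (hF.geo w (lst a b u) hw1 (lst_mem ha hbF u) (by rw [hw2, lst_prod])).1
    rw [lst_length, hw3] at this
    exact this
  · intro u u' w hw hprod hlen
    have h1 := (hF.geo (lst a b u' ++ w) (lst a b u) (by
      intro s hs
      rcases List.mem_append.1 hs with hs | hs
      · exact hlet s (lst_mem ha hbF u' s hs)
      · exact hw s hs) (lst_mem ha hbF u) (by
      rw [List.prod_append, lst_prod, lst_prod, hprod])).2 (by
      rw [List.length_append, lst_length, lst_length]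
      omega)
    have h2 : ∀ s ∈ w, s ∈ F := fun s hs => h1 s (List.mem_append_right _ hs)
    obtain ⟨w', hw'⟩ := lift_word F w h2
    have h3 : ∀ l : List (Subgroup.closure F), (∀ s ∈ l, (s : G) ∈ F) →
        ∃ v : List Bool, π l.prod = evl (π a') (π b') v := by
      intro l
      induction l with
      | nil => exact fun _ => ⟨[], by simp [evl]⟩
      | cons s l ih =>
        intro hl
        obtain ⟨v, hv⟩ := ih fun t ht => hl t (List.mem_cons_of_mem s ht)
        rcases htight s (hl s List.mem_cons_self) with h4 | h4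
        · exact ⟨false :: v, by rw [List.prod_cons, map_mul, h4, hv, evl]⟩
        · exact ⟨true :: v, by rw [List.prod_cons, map_mul, h4, hv, evl]⟩
    obtain ⟨v, hv⟩ := h3 w' (by
      intro s hs
      apply h2
      rw [← hw']
      exact List.mem_map_of_mem hs)
    refine ⟨v, hinv _ _ ?_⟩
    have h5 : evl a' b' u' * w'.prod = evl a' b' u := by
      apply Subtype.ext
      have e1 : (Subgroup.closure F).subtype (evl a' b' u' * w'.prod) =
          (Subgroup.closure F).subtype (evl a' b' u) := by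
        rw [map_mul, map_evl, map_evl, map_list_prod, hw']
        exact hprod
      exact e1
    rw [evl_append, ← hv, ← map_evl, ← map_evl, ← map_mul, h5]

/-- a face which consists of two letters modulo a normal subgroup with torsion-free nilpotent
quotient of class at least three -/
theorem face_main (hS : Subgroup.closure (S : Set G) = ⊤)
    (hΓ : Γ = SimpleGraph.fromRel (fun g h : G => g⁻¹ * h ∈ S)) {F : Set G} (hF : IsFace S F)
    (M : Subgroup (Subgroup.closure F)) (hM : M.Normal)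
    (hnil : ∃ N : ℕ, (⊤ : Subgroup (Subgroup.closure F)).lowerCentralSeries N ≤ M)
    (htf : ∀ g : Subgroup.closure F, ∀ n : ℕ, 0 < n → g ^ n ∈ M → g ∈ M)
    (a b : Subgroup.closure F) (ha : (a : G) ∈ F) (hbF : (b : G) ∈ F)
    (hab : ∀ s : Subgroup.closure F, (s : G) ∈ F → a⁻¹ * s ∈ M ∨ b⁻¹ * s ∈ M)
    (hcomm : ¬ (⁅⁅a, b⁆, a⁆ ∈ M ∧ ⁅⁅a, b⁆, b⁆ ∈ M)) :
    ¬ (closure (range (hb (fun x y : G => Γ.dist x y) 1)) \
      range (hb (fun x y : G => Γ.dist x y) 1)).Countable := by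
  let π : Subgroup.closure F →* Subgroup.closure F ⧸ M := QuotientGroup.mk' M
  have hπ : Function.Surjective π := QuotientGroup.mk'_surjective M
  have hπ1 : ∀ g, π g = 1 ↔ g ∈ M := fun g => QuotientGroup.eq_one_iff g
  obtain ⟨N, hN⟩ := hnil
  have hN' : lcs (Subgroup.closure F ⧸ M) N = ⊥ := by
    rw [eq_bot_iff]
    have h1 : (⊤ : Subgroup (Subgroup.closure F ⧸ M)) =
        (⊤ : Subgroup (Subgroup.closure F)).map π := (Subgroup.map_top_of_surjective π hπ).symm
    show (⊤ : Subgroup (Subgroup.closure F ⧸ M)).lowerCentralSeries N ≤ ⊥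
    rw [h1, ← Subgroup.map_lowerCentralSeries, Subgroup.map_le_iff_le_comap]
    intro x hx
    rw [Subgroup.mem_comap, Subgroup.mem_bot]
    exact (hπ1 x).2 (hN hx)
  have htf' : ∀ g : Subgroup.closure F ⧸ M, ∀ n : ℕ, 0 < n → g ^ n = 1 → g = 1 := by
    intro g n hn hg
    obtain ⟨g, rfl⟩ := hπ g
    rw [← map_pow, hπ1] at hg
    exact (hπ1 g).2 (htf g n hn hg)
  have hc' : ¬ (⁅⁅π a, π b⁆, π a⁆ = 1 ∧ ⁅⁅π a, π b⁆, π b⁆ = 1) := by
    rw [← map_commutatorElement, ← map_commutatorElement, ← map_commutatorElement, hπ1, hπ1]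
    exact hcomm
  have htight : ∀ s : Subgroup.closure F, (s : G) ∈ F → π s = π a ∨ π s = π b := by
    intro s hs
    rcases hab s hs with h | h
    · left
      rw [← hπ1, map_mul, map_inv, inv_mul_eq_one] at h
      exact h.symm
    · right
      rw [← hπ1, map_mul, map_inv, inv_mul_eq_one] at h
      exact h.symm
  obtain ⟨α, β, hα, h1 | h1⟩ := invEq_of_nilpotent htf' N hN' (π a) (π b) hc'
  · exact face_core hS hΓ hF ha hbF π htight hα h1
  · exact face_core hS hΓ hF hbF ha π (fun s hs => (htight s hs).symm) hα h1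

end Pool.Agent.Lib.MP_eca5e6_al.Sp
end

section

/-!
# MP_eca5e6_al: nilpotent groups and faces with two letters
-/

set_option autoImplicit false

namespace Pool.Agent.Lib.MP_eca5e6_al.Sp

open Filter Set Topology C2
open scoped commutatorElement

variable {G : Type} [Group G] {S : Finset G} {Γ : SimpleGraph G}

/-- two tight letters modulo a normal subgroup with torsion-free nilpotent quotient -/
theorem two_letters (hS : Subgroup.closure (S : Set G) = ⊤)
    (hΓ : Γ = SimpleGraph.fromRel (fun g h : G => g⁻¹ * h ∈ S))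
    (T : Subgroup G) (hT : T.Normal)
    (hnil : ∃ N : ℕ, (⊤ : Subgroup G).lowerCentralSeries N ≤ T)
    (htf : ∀ g : G, ∀ n : ℕ, 0 < n → g ^ n ∈ T → g ∈ T) {μ : G → ℝ}
    (hμ : ∀ g h, μ (g * h) = μ g + μ h) (hle : ∀ s, s ∈ S ∨ s⁻¹ ∈ S → μ s ≤ 1) {a b : G}
    (ha : a ∈ S ∨ a⁻¹ ∈ S) (hbS : b ∈ S ∨ b⁻¹ ∈ S) (hμa : μ a = 1) (hμb : μ b = 1)
    (htight : ∀ s, s ∈ S ∨ s⁻¹ ∈ S → μ s = 1 → a⁻¹ * s ∈ T ∨ b⁻¹ * s ∈ T)
    (hor : ¬ (⁅⁅a, b⁆, a⁆ ∈ T ∧ ⁅⁅a, b⁆, b⁆ ∈ T) ∨
      (Finite T ∧ ∀ n : ℕ, 0 < n → ⁅a, b⁆ ^ n ∉ (⊤ : Subgroup G).lowerCentralSeries 2)) :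
    ¬ (closure (range (hb (fun x y : G => Γ.dist x y) 1)) \
      range (hb (fun x y : G => Γ.dist x y) 1)).Countable := by
  by_cases hc : ⁅⁅a, b⁆, a⁆ ∈ T ∧ ⁅⁅a, b⁆, b⁆ ∈ T
  · rcases hor with hor | ⟨hTf, hinf⟩
    · exact absurd hc hor
    refine pair_fin hS hΓ hμ hle T hT hTf ha hbS hμa hμb ?_ hc.1 hc.2 hinf
    intro s hs hs1
    rcases htight s hs hs1 with h | h
    · exact ⟨1, 0, one_pos, by omega, a⁻¹ * s, (le_sup_right : T ≤ _) h, by simp⟩
    · exact ⟨1, 1, one_pos, le_refl _, b⁻¹ * s, (le_sup_right : T ≤ _) h, by simp⟩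
  · set F : Set G := {s | (s ∈ S ∨ s⁻¹ ∈ S) ∧ μ s = 1} with hFdef
    have hF : IsFace S F := IsFace.base μ hμ hle
    have haF : a ∈ F := ⟨ha, hμa⟩
    have hbF : b ∈ F := ⟨hbS, hμb⟩
    obtain ⟨N, hN⟩ := hnil
    refine face_main hS hΓ hF (T.subgroupOf (Subgroup.closure F)) inferInstance ⟨N, ?_⟩ ?_
      ⟨a, Subgroup.subset_closure haF⟩ ⟨b, Subgroup.subset_closure hbF⟩ haF hbF ?_ ?_
    · intro x hx
      rw [Subgroup.mem_subgroupOf]
      apply hN
      have h1 : ((⊤ : Subgroup (Subgroup.closure F)).lowerCentralSeries N).map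
          (Subgroup.closure F).subtype ≤ (⊤ : Subgroup G).lowerCentralSeries N := by
        rw [Subgroup.map_lowerCentralSeries]
        have h2 : (⊤ : Subgroup (Subgroup.closure F)).map (Subgroup.closure F).subtype ≤ ⊤ := le_top
        clear hN hx
        induction N with
        | zero => exact h2
        | succ n ih => exact Subgroup.commutator_mono ih h2
      exact h1 (Subgroup.mem_map_of_mem _ hx)
    · intro g n hn hg
      rw [Subgroup.mem_subgroupOf] at hg ⊢
      apply htf _ n hn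
      simpa using hg
    · intro s hs
      rcases htight s hs.1 hs.2 with h | h
      · exact Or.inl h
      · exact Or.inr h
    · intro h
      exact hc ⟨h.1, h.2⟩

end Pool.Agent.Lib.MP_eca5e6_al.Sp
end
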